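import Mathlib

/-!
# Block KQ-I1: one complex variable (only Mathlib)

`disc_int`: `∫_{|z| < 1} |z|^(-a) < ∞` for `a < 2` (polar coordinates
`Complex.lintegral_comp_polarCoord_symm`, or `∑_n` over the annuli `2^(-n-1) ≤ |z| < 2^(-n)`, on
which the integral is at most `π 4^(-n) max(1, 2^((n+1) a))`, a geometric series).

`avg`. Let `K1 = ∫_{|z| < 2} |z|^(-s)`, finite (on `1 ≤ |z| < 2` the integrand is `≤ 1`), and
`K = K1 + 2^s vol (ball 0 (1/2)) + 1`. Let `a, b ∈ ℂ`. If `b = 0` the left side is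
`vol (ball 0 (1/2)) |a|^(-s)`. If `b ≠ 0` and `|a| ≤ |b|`: `|a + c b| = |b| |c + a/b|`, and
`∫_{|c| < 1/2} |c + a/b|^(-s) dc ≤ ∫_{|z| < 2} |z|^(-s) = K1` (translation), so the left side is
`≤ K1 |b|^(-s)`. If `|a| > |b|`: `|a + c b| ≥ |a| - |b|/2 ≥ |a|/2`, so the integrand is
`≤ 2^s |a|^(-s)`. In `ENNReal`: `0^(-s) = ⊤`; for `a = b = 0` both sides are `⊤` (`K ≠ 0`).
-/

set_option autoImplicit false

namespace Pool.Agent.Helper12.KQ

open MeasureTheory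

private theorem enorm_mono {x y : ℂ} (h : ‖x‖ ≤ ‖y‖) : ‖x‖ₑ ≤ ‖y‖ₑ := by
  rw [← ofReal_norm, ← ofReal_norm]
  exact ENNReal.ofReal_le_ofReal h

private theorem ball_int {a : ℝ} (ha : a < 2) (r : ℝ) :
    ∫⁻ z in Metric.ball (0 : ℂ) r, ‖z‖ₑ ^ (-a) < ⊤ := by
  have hd : Module.finrank ℝ ℂ = 2 := Complex.finrank_real_complex
  have h1 : IntegrableOn (fun z : ℂ => ‖z‖ ^ (-a)) (Metric.ball 0 r) volume := by
    refine integrableOn_ball_of_norm_le_rpow (C := 1) (α := a) (by rw [hd]; norm_num)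
      (by rw [hd]; exact_mod_cast ha) ?_ ?_
    · refine Filter.Eventually.of_forall (fun z => ?_)
      rw [one_mul, Real.norm_eq_abs, abs_of_nonneg (Real.rpow_nonneg (norm_nonneg z) _)]
    · exact (measurable_norm.pow_const (-a)).aestronglyMeasurable
  have h2 := h1.2
  rw [HasFiniteIntegral] at h2
  refine lt_of_le_of_lt (le_of_eq ?_) h2
  refine lintegral_congr_ae ?_
  have h3 : ∀ᵐ z : ℂ ∂(volume.restrict (Metric.ball 0 r)), z ≠ 0 := by
    refine ae_restrict_of_ae ?_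
    exact Measure.ae_ne volume 0
  filter_upwards [h3] with z hz
  have hz' : 0 < ‖z‖ := norm_pos_iff.mpr hz
  rw [Real.enorm_of_nonneg (Real.rpow_nonneg (norm_nonneg z) _),
    ← ENNReal.ofReal_rpow_of_pos hz', ofReal_norm]

theorem disc_int {a : ℝ} (ha : a < 2) :
    ∫⁻ z in Metric.ball (0 : ℂ) 1, ‖z‖ₑ ^ (-a) < ⊤ := ball_int ha 1

theorem avg {s : ℝ} (hs : 0 < s) (hs2 : s < 2) : ∃ K : ENNReal, K ≠ ⊤ ∧ ∀ a b : ℂ,
    ∫⁻ c in Metric.ball (0 : ℂ) (1 / 2), ‖a + c * b‖ₑ ^ (-s) ≤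
      K * (max ‖a‖ₑ ‖b‖ₑ) ^ (-s) := by
  set K1 : ENNReal := ∫⁻ z in Metric.ball (0 : ℂ) 2, ‖z‖ₑ ^ (-s) with hK1
  set V : ENNReal := volume (Metric.ball (0 : ℂ) (1 / 2)) with hV
  have hV' : V ≠ ⊤ := measure_ball_lt_top.ne
  have hK1' : K1 ≠ ⊤ := (ball_int hs2 2).ne
  have h2s : (2 : ENNReal) ^ s ≠ ⊤ := ENNReal.rpow_ne_top_of_nonneg hs.le (by norm_num)
  refine ⟨K1 + 2 ^ s * V + 1, ?_, ?_⟩
  · exact ENNReal.add_ne_top.mpr ⟨ENNReal.add_ne_top.mpr ⟨hK1', ENNReal.mul_ne_top h2s hV'⟩,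
      ENNReal.one_ne_top⟩
  intro a b
  rcases le_or_gt ‖a‖ ‖b‖ with hab | hab
  · have hab' : ‖a‖ₑ ≤ ‖b‖ₑ := enorm_mono hab
    rw [max_eq_right hab']
    by_cases hb : b = 0
    · subst hb
      rw [enorm_zero, ENNReal.zero_rpow_of_neg (by linarith), ENNReal.mul_top (by simp)]
      exact le_top
    · have hbpos : ‖b‖ₑ ≠ 0 := by simpa using hb
      have hbtop : ‖b‖ₑ ≠ ⊤ := enorm_ne_top
      have e1 : ∀ c : ℂ, ‖a + c * b‖ₑ ^ (-s) = ‖b‖ₑ ^ (-s) * ‖c + a / b‖ₑ ^ (-s) := by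
        intro c
        have : a + c * b = b * (c + a / b) := by field_simp; ring
        rw [this, enorm_mul]
        exact ENNReal.mul_rpow_of_ne_top hbtop enorm_ne_top (-s) |>.trans rfl
      have e2 : ∫⁻ c in Metric.ball (0 : ℂ) (1 / 2), ‖c + a / b‖ₑ ^ (-s) ≤ K1 := by
        have hle : ‖a / b‖ ≤ 1 := by
          rw [norm_div]
          exact div_le_one_of_le₀ hab (norm_nonneg _)
        have e3 : ∫⁻ c in Metric.ball (0 : ℂ) (1 / 2), ‖c + a / b‖ₑ ^ (-s) =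
            ∫⁻ c, (Metric.ball (0 : ℂ) (1 / 2)).indicator (fun c => ‖c + a / b‖ₑ ^ (-s)) c :=
          (lintegral_indicator Metric.isOpen_ball.measurableSet _).symm
        have e4 : K1 = ∫⁻ c, (Metric.ball (0 : ℂ) 2).indicator (fun c => ‖c‖ₑ ^ (-s)) (c + a / b) := by
          rw [lintegral_add_right_eq_self
            (fun c => (Metric.ball (0 : ℂ) 2).indicator (fun c => ‖c‖ₑ ^ (-s)) c) (a / b)]
          exact (lintegral_indicator Metric.isOpen_ball.measurableSet _).symm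
        rw [e3, e4]
        refine lintegral_mono (fun c => ?_)
        by_cases hc : c ∈ Metric.ball (0 : ℂ) (1 / 2)
        · have hc2 : c + a / b ∈ Metric.ball (0 : ℂ) 2 := by
            rw [mem_ball_zero_iff] at hc ⊢
            have := norm_add_le c (a / b)
            linarith
          simp only [Set.indicator_of_mem hc, Set.indicator_of_mem hc2]
          exact le_rfl
        · simp only [Set.indicator_of_notMem hc]
          exact bot_le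
      calc ∫⁻ c in Metric.ball (0 : ℂ) (1 / 2), ‖a + c * b‖ₑ ^ (-s)
          = ∫⁻ c in Metric.ball (0 : ℂ) (1 / 2), ‖b‖ₑ ^ (-s) * ‖c + a / b‖ₑ ^ (-s) := by
            refine lintegral_congr (fun c => e1 c)
        _ = ‖b‖ₑ ^ (-s) * ∫⁻ c in Metric.ball (0 : ℂ) (1 / 2), ‖c + a / b‖ₑ ^ (-s) := by
            refine lintegral_const_mul' _ _ ?_
            exact ENNReal.rpow_ne_top_of_ne_zero hbpos hbtop
        _ ≤ ‖b‖ₑ ^ (-s) * (K1 + 2 ^ s * V + 1) := by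
            refine mul_le_mul' le_rfl (e2.trans ?_)
            rw [add_assoc]
            exact le_self_add
        _ = (K1 + 2 ^ s * V + 1) * ‖b‖ₑ ^ (-s) := mul_comm _ _
  · have hab' : ‖b‖ₑ ≤ ‖a‖ₑ := enorm_mono hab.le
    rw [max_eq_left hab']
    have hapos : 0 < ‖a‖ := lt_of_le_of_lt (norm_nonneg b) hab
    have hane : ‖a‖ₑ ≠ 0 := by
      simpa using norm_pos_iff.mp hapos
    have hatop : ‖a‖ₑ ≠ ⊤ := enorm_ne_top
    have e1 : ∀ c ∈ Metric.ball (0 : ℂ) (1 / 2), ‖a + c * b‖ₑ ^ (-s) ≤ 2 ^ s * ‖a‖ₑ ^ (-s) := by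
      intro c hc
      rw [mem_ball_zero_iff] at hc
      have h1 : ‖a‖ ≤ 2 * ‖a + c * b‖ := by
        have h2 : ‖a‖ ≤ ‖a + c * b‖ + ‖c * b‖ := by
          have := norm_sub_le (a + c * b) (c * b)
          simpa using this
        have h3 : ‖c * b‖ ≤ 1 / 2 * ‖a‖ := by
          rw [norm_mul]
          exact mul_le_mul hc.le hab.le (norm_nonneg _) (by norm_num)
        linarith
      have h4 : ‖a‖ₑ ≤ 2 * ‖a + c * b‖ₑ := by
        rw [← ofReal_norm, ← ofReal_norm]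
        have : (2 : ENNReal) = ENNReal.ofReal 2 := by norm_num
        rw [this, ← ENNReal.ofReal_mul (by norm_num)]
        exact ENNReal.ofReal_le_ofReal h1
      have h5 : ‖a‖ₑ ^ s ≤ 2 ^ s * ‖a + c * b‖ₑ ^ s := by
        rw [← ENNReal.mul_rpow_of_nonneg _ _ hs.le]
        exact ENNReal.rpow_le_rpow h4 hs.le
      rw [ENNReal.rpow_neg, ENNReal.rpow_neg]
      have h6 : ‖a‖ₑ ^ s ≠ 0 := by
        intro h
        rw [ENNReal.rpow_eq_zero_iff] at h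
        rcases h with h | h
        · exact hane h.1
        · exact hatop h.1
      have h7 : ‖a‖ₑ ^ s ≠ ⊤ := ENNReal.rpow_ne_top_of_nonneg hs.le hatop
      rw [← div_eq_mul_inv, ENNReal.le_div_iff_mul_le (Or.inl h6) (Or.inl h7)]
      have h8 : ‖a + c * b‖ₑ ^ s ≠ ⊤ := ENNReal.rpow_ne_top_of_nonneg hs.le enorm_ne_top
      have h9 : ‖a + c * b‖ₑ ^ s ≠ 0 := by
        intro h
        rw [h, mul_zero] at h5
        exact h6 (le_antisymm h5 bot_le)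
      calc (‖a + c * b‖ₑ ^ s)⁻¹ * ‖a‖ₑ ^ s ≤ (‖a + c * b‖ₑ ^ s)⁻¹ * (2 ^ s * ‖a + c * b‖ₑ ^ s) :=
            mul_le_mul' le_rfl h5
        _ = 2 ^ s * ((‖a + c * b‖ₑ ^ s)⁻¹ * ‖a + c * b‖ₑ ^ s) := by ring
        _ = 2 ^ s := by rw [ENNReal.inv_mul_cancel h9 h8, mul_one]
    calc ∫⁻ c in Metric.ball (0 : ℂ) (1 / 2), ‖a + c * b‖ₑ ^ (-s)
        ≤ ∫⁻ _ in Metric.ball (0 : ℂ) (1 / 2), 2 ^ s * ‖a‖ₑ ^ (-s) :=
          setLIntegral_mono' Metric.isOpen_ball.measurableSet e1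
      _ = 2 ^ s * ‖a‖ₑ ^ (-s) * V := by
          rw [setLIntegral_const]
      _ = (2 ^ s * V) * ‖a‖ₑ ^ (-s) := by ring
      _ ≤ (K1 + 2 ^ s * V + 1) * ‖a‖ₑ ^ (-s) := by
          refine mul_le_mul' ?_ le_rfl
          exact le_trans le_add_self le_self_add

end Pool.Agent.Helper12.KQ
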