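import Pool.Agent.Helper12.KQ.Avg

/-!
# Block KQ-I3: the monomial integral

Let `p_i = ∑_m lam_m m_i < k`, `s = 2/k`. For `x` with all `x_i ≠ 0` put `y_m = ∏ |x_i|^(m_i) > 0`;
the weighted geometric mean is at most the maximum:
`∏_i |x_i|^(p_i) = ∏_m y_m^(lam_m) ≤ (sup_m y_m)^(∑ lam_m) = sup_m y_m`. Hence
`(sup_m y_m)^(-s) ≤ ∏_i |x_i|^(-s p_i)`. The set of the `x` with some `x_i = 0` has measure zero. The
integral of the product over the product of the unit discs is the product of the integrals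
`∫_{|z| < 1} |z|^(-s p_i) dz`, finite by `disc_int` because `s p_i < 2`
(`MeasureTheory.lintegral_fintype_prod_eq_prod`-type lemma for `volume` on `Fin d → ℂ`, or induction
on `d`; restricting the measure to a product set is the product of the restricted measures,
`Measure.restrict_pi_pi`).
-/

set_option autoImplicit false

namespace Pool.Agent.Helper12.KQ

open MeasureTheory

private theorem prod_lint {α : Type} [MeasurableSpace α] (μ : Measure α) [SigmaFinite μ] :
    ∀ {n : ℕ} (f : Fin n → α → ENNReal) (_ : ∀ i, Measurable (f i)),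
      ∫⁻ x, ∏ i, f i (x i) ∂(Measure.pi fun _ : Fin n => μ) = ∏ i, ∫⁻ x, f i x ∂μ := by
  intro n
  induction n with
  | zero =>
    intro f _
    simp [Measure.pi_empty_univ]
  | succ n ih =>
    intro f hf
    have h := (measurePreserving_piFinSuccAbove (fun _ : Fin (n + 1) => μ) 0).symm
    rw [← h.lintegral_comp_emb (MeasurableEquiv.measurableEmbedding _)]
    simp_rw [MeasurableEquiv.piFinSuccAbove_symm_apply, Fin.insertNthEquiv,
      Fin.prod_univ_succ]
    simp only [Equiv.coe_fn_mk, Fin.insertNth_zero, Fin.cons_zero, Fin.cons_succ]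
    have h2 := lintegral_prod_mul (μ := μ) (ν := Measure.pi fun _ : Fin n => μ)
      (f := f 0) (g := fun x => ∏ i : Fin n, f i.succ (x i)) (hf 0).aemeasurable
      (Finset.measurable_prod _ fun i _ => (hf i.succ).comp (measurable_pi_apply i)).aemeasurable
    rw [ih (fun i => f i.succ) fun i => hf i.succ] at h2
    exact h2

private theorem prod_rpow_sum {ι : Type*} (S : Finset ι) (a : ENNReal) (lam : ι → ℝ)
    (h0 : ∀ m ∈ S, 0 ≤ lam m) : ∏ m ∈ S, a ^ lam m = a ^ ∑ m ∈ S, lam m := by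
  classical
  induction S using Finset.induction_on with
  | empty => simp
  | insert b S hb ih =>
    rw [Finset.prod_insert hb, Finset.sum_insert hb,
      ENNReal.rpow_add_of_nonneg _ _ (h0 b (Finset.mem_insert_self _ _))
        (Finset.sum_nonneg fun m hm => h0 m (Finset.mem_insert_of_mem hm)),
      ih fun m hm => h0 m (Finset.mem_insert_of_mem hm)]

private theorem geom {d : ℕ} (S : Finset (Fin d → ℕ)) (lam : (Fin d → ℕ) → ℝ)
    (h0 : ∀ m ∈ S, 0 ≤ lam m) (h1 : ∑ m ∈ S, lam m = 1) (y : Fin d → ENNReal) :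
    ∏ i, y i ^ (∑ m ∈ S, lam m * (m i : ℝ)) ≤ S.sup fun m => ∏ i, y i ^ m i := by
  set M := S.sup fun m => ∏ i, y i ^ m i with hM
  calc ∏ i, y i ^ (∑ m ∈ S, lam m * (m i : ℝ))
      = ∏ i, ∏ m ∈ S, y i ^ (lam m * (m i : ℝ)) := by
        refine Finset.prod_congr rfl fun i _ => ?_
        rw [prod_rpow_sum S (y i) (fun m => lam m * (m i : ℝ))
          fun m hm => mul_nonneg (h0 m hm) (Nat.cast_nonneg _)]
    _ = ∏ m ∈ S, ∏ i, y i ^ (lam m * (m i : ℝ)) := Finset.prod_comm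
    _ = ∏ m ∈ S, (∏ i, y i ^ m i) ^ lam m := by
        refine Finset.prod_congr rfl fun m hm => ?_
        rw [← ENNReal.prod_rpow_of_nonneg (h0 m hm)]
        refine Finset.prod_congr rfl fun i _ => ?_
        rw [mul_comm, ENNReal.rpow_mul, ENNReal.rpow_natCast]
    _ ≤ ∏ m ∈ S, M ^ lam m := by
        refine Finset.prod_le_prod' fun m hm => ?_
        exact ENNReal.rpow_le_rpow (Finset.le_sup (f := fun m => ∏ i, y i ^ m i) hm) (h0 m hm)
    _ = M := by rw [prod_rpow_sum S M lam h0, h1, ENNReal.rpow_one]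

theorem base_int {d k : ℕ} (hk : 0 < k) (S : Finset (Fin d → ℕ)) (lam : (Fin d → ℕ) → ℝ)
    (h0 : ∀ m ∈ S, 0 ≤ lam m) (h1 : ∑ m ∈ S, lam m = 1)
    (h2 : ∀ i, ∑ m ∈ S, lam m * (m i : ℝ) < k) :
    ∫⁻ x in Set.univ.pi fun _ : Fin d => Metric.ball (0 : ℂ) 1,
      (S.sup fun m => ‖∏ i, x i ^ m i‖ₑ) ^ (-(2 / (k : ℝ))) < ⊤ := by
  have hkR : (0 : ℝ) < k := Nat.cast_pos.2 hk
  set s : ℝ := 2 / (k : ℝ) with hs
  have hs0 : 0 < s := by positivity
  set p : Fin d → ℝ := fun i => ∑ m ∈ S, lam m * (m i : ℝ) with hp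
  have hsp : ∀ i, s * p i < 2 := by
    intro i
    have h3 : p i < k := h2 i
    calc s * p i < s * k := mul_lt_mul_of_pos_left h3 hs0
      _ = 2 := by rw [hs]; field_simp
  have hpt : ∀ x : Fin d → ℂ,
      (S.sup fun m => ‖∏ i, x i ^ m i‖ₑ) ^ (-s) ≤ ∏ i, ‖x i‖ₑ ^ (-(s * p i)) := by
    intro x
    have hg := geom S lam h0 h1 fun i => ‖x i‖ₑ
    have he : (S.sup fun m => ‖∏ i, x i ^ m i‖ₑ) = S.sup fun m => ∏ i, ‖x i‖ₑ ^ m i := by
      congr 1
      funext m
      simp only [enorm_eq_nnnorm, nnnorm_prod, nnnorm_pow, ENNReal.ofNNReal_finsetProd,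
        ENNReal.coe_pow]
    have hP : ∏ i, ‖x i‖ₑ ^ (-(s * p i)) = (∏ i, ‖x i‖ₑ ^ p i) ^ (-s) := by
      rw [← ENNReal.prod_rpow_of_ne_top]
      · refine Finset.prod_congr rfl fun i _ => ?_
        rw [← ENNReal.rpow_mul]
        congr 1
        ring
      · intro i _
        exact ENNReal.rpow_ne_top_of_nonneg
          (Finset.sum_nonneg fun m hm => mul_nonneg (h0 m hm) (Nat.cast_nonneg _)) enorm_ne_top
    rw [he, hP, ENNReal.rpow_neg, ENNReal.rpow_neg]
    exact ENNReal.inv_le_inv.2 (ENNReal.rpow_le_rpow hg hs0.le)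
  calc ∫⁻ x in Set.univ.pi fun _ : Fin d => Metric.ball (0 : ℂ) 1,
        (S.sup fun m => ‖∏ i, x i ^ m i‖ₑ) ^ (-s)
      ≤ ∫⁻ x in Set.univ.pi fun _ : Fin d => Metric.ball (0 : ℂ) 1,
        ∏ i, ‖x i‖ₑ ^ (-(s * p i)) := lintegral_mono fun x => hpt x
    _ = ∏ i, ∫⁻ z in Metric.ball (0 : ℂ) 1, ‖z‖ₑ ^ (-(s * p i)) := by
        rw [volume_pi, Measure.restrict_pi_pi]
        exact prod_lint _ (fun i z => ‖z‖ₑ ^ (-(s * p i)))
          fun i => measurable_enorm.pow_const _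
    _ < ⊤ := ENNReal.prod_lt_top fun i _ => disc_int (hsp i)

end Pool.Agent.Helper12.KQ
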