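import Pool.Agent.Helper12.KQ.Avg

/-!
# Block KQ-I2: general linear combinations

Claim: for every finite `S` and every measurable `g : X → ℂ`, if
`∫ (max |g| (sup_{i ∈ S} |f_i|))^(-s) dμ < ∞` then there is `c` with
`∫ |g + ∑_{i ∈ S} c_i f_i|^(-s) dμ < ∞`. The theorem is the case `g = 0`.

Proof by induction on `S`. `S = ∅`: clear (`Finset.sup_empty = ⊥ = 0`). For `insert i S` let
`M x = sup_{j ∈ S} |f_j x|`. For `c` in the ball of radius `1/2` and `x ∈ X`:
`(max |g + c f_i| M)^(-s) = min (|g + c f_i|^(-s)) (M^(-s))`, so by `avg`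
`∫_{|c| < 1/2} (max |g x + c f_i x| (M x))^(-s) dc
  ≤ min (K (max |g x| |f_i x|)^(-s)) (V (M x)^(-s)) ≤ (K + V) (max (max |g x| |f_i x|) (M x))^(-s)`
with `V` the volume of the ball. Integrate over `x`; by Tonelli (`lintegral_lintegral_swap`,
measurability of `(c, x) ↦ ...`) the function `c ↦ ∫ (max |g + c f_i| M)^(-s) dμ` has a finite
integral over the ball, so it is finite for almost every `c` in the ball (`ae_lt_top`), in
particular for some `c`; apply the induction hypothesis to `S` and `g + c f_i`, and combine the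
coefficients (`Function.update`).
-/

set_option autoImplicit false

namespace Pool.Agent.Helper12.KQ

open MeasureTheory

private lemma rpow_anti61 {s : ℝ} (hs : 0 < s) {a b : ENNReal} (h : a ≤ b) :
    b ^ (-s) ≤ a ^ (-s) := by
  rw [ENNReal.rpow_neg, ENNReal.rpow_neg]
  exact ENNReal.inv_le_inv.mpr (ENNReal.rpow_le_rpow h hs.le)

private lemma meas_sup61 {X ι : Type*} [MeasurableSpace X] (S : Finset ι) (f : ι → X → ℂ)
    (hf : ∀ i, Measurable (f i)) : Measurable fun x => S.sup fun i => ‖f i x‖ₑ := by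
  classical
  induction S using Finset.induction_on with
  | empty => simp only [Finset.sup_empty]; exact measurable_const
  | insert i S hi ih =>
    simp only [Finset.sup_insert]
    exact (hf i).enorm.sup ih

private lemma point61 {s : ℝ} (hs : 0 < s) {K : ENNReal}
    (hK : ∀ a b : ℂ, ∫⁻ c in Metric.ball (0 : ℂ) (1 / 2), ‖a + c * b‖ₑ ^ (-s) ≤
      K * (max ‖a‖ₑ ‖b‖ₑ) ^ (-s)) (a b : ℂ) (M : ENNReal) :
    ∫⁻ c in Metric.ball (0 : ℂ) (1 / 2), (max ‖a + c * b‖ₑ M) ^ (-s) ≤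
      (K + volume (Metric.ball (0 : ℂ) (1 / 2))) * (max (max ‖a‖ₑ ‖b‖ₑ) M) ^ (-s) := by
  rcases le_total M (max ‖a‖ₑ ‖b‖ₑ) with h | h
  · rw [max_eq_left h]
    calc ∫⁻ c in Metric.ball (0 : ℂ) (1 / 2), (max ‖a + c * b‖ₑ M) ^ (-s)
        ≤ ∫⁻ c in Metric.ball (0 : ℂ) (1 / 2), ‖a + c * b‖ₑ ^ (-s) :=
          lintegral_mono fun c => rpow_anti61 hs (le_max_left _ _)
      _ ≤ K * (max ‖a‖ₑ ‖b‖ₑ) ^ (-s) := hK a b
      _ ≤ _ := mul_le_mul' le_self_add le_rfl
  · rw [max_eq_right h]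
    calc ∫⁻ c in Metric.ball (0 : ℂ) (1 / 2), (max ‖a + c * b‖ₑ M) ^ (-s)
        ≤ ∫⁻ _ in Metric.ball (0 : ℂ) (1 / 2), M ^ (-s) :=
          lintegral_mono fun c => rpow_anti61 hs (le_max_right _ _)
      _ = volume (Metric.ball (0 : ℂ) (1 / 2)) * M ^ (-s) := by
          rw [setLIntegral_const, mul_comm]
      _ ≤ _ := mul_le_mul' le_add_self le_rfl

private lemma comb_aux61 {X ι : Type*} [MeasurableSpace X] (μ : Measure X) [SFinite μ] {s : ℝ}
    (hs : 0 < s) (hs2 : s < 2) (S : Finset ι) (f : ι → X → ℂ) (hf : ∀ i, Measurable (f i)) :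
    ∀ g : X → ℂ, Measurable g →
      ∫⁻ x, (max ‖g x‖ₑ (S.sup fun i => ‖f i x‖ₑ)) ^ (-s) ∂μ < ⊤ →
      ∃ c : ι → ℂ, ∫⁻ x, ‖g x + ∑ i ∈ S, c i * f i x‖ₑ ^ (-s) ∂μ < ⊤ := by
  classical
  obtain ⟨K, hKt, hK⟩ := avg hs hs2
  induction S using Finset.induction_on with
  | empty =>
    intro g _ h
    refine ⟨fun _ => 0, ?_⟩
    simpa using h
  | insert i S hi ih =>
    intro g hg h
    have hM := meas_sup61 S f hf
    set V : ENNReal := volume (Metric.ball (0 : ℂ) (1 / 2)) with hV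
    have hVt : V ≠ ⊤ := (Metric.isBounded_ball.measure_lt_top).ne
    have hmeas : Measurable (Function.uncurry fun (c : ℂ) (x : X) =>
        (max ‖g x + c * f i x‖ₑ (S.sup fun j => ‖f j x‖ₑ)) ^ (-s)) := by
      have h1 : Measurable fun p : ℂ × X => ‖g p.2 + p.1 * f i p.2‖ₑ :=
        ((hg.comp measurable_snd).add
          (measurable_fst.mul ((hf i).comp measurable_snd))).enorm
      exact (h1.max (hM.comp measurable_snd)).pow_const _
    have hfin : ∫⁻ c in Metric.ball (0 : ℂ) (1 / 2), ∫⁻ x,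
        (max ‖g x + c * f i x‖ₑ (S.sup fun j => ‖f j x‖ₑ)) ^ (-s) ∂μ < ⊤ := by
      rw [lintegral_lintegral_swap hmeas.aemeasurable]
      calc ∫⁻ x, (∫⁻ c in Metric.ball (0 : ℂ) (1 / 2),
            (max ‖g x + c * f i x‖ₑ (S.sup fun j => ‖f j x‖ₑ)) ^ (-s)) ∂μ
          ≤ ∫⁻ x, (K + V) *
            (max ‖g x‖ₑ ((insert i S).sup fun j => ‖f j x‖ₑ)) ^ (-s) ∂μ := by
            refine lintegral_mono fun x => ?_
            have h1 := point61 hs hK (g x) (f i x) (S.sup fun j => ‖f j x‖ₑ)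
            rw [Finset.sup_insert]
            have h2 : max ‖g x‖ₑ (‖f i x‖ₑ ⊔ S.sup fun j => ‖f j x‖ₑ)
                = max (max ‖g x‖ₑ ‖f i x‖ₑ) (S.sup fun j => ‖f j x‖ₑ) :=
              (max_assoc _ _ _).symm
            rw [h2]
            exact h1
        _ = (K + V) * ∫⁻ x, (max ‖g x‖ₑ ((insert i S).sup fun j => ‖f j x‖ₑ)) ^ (-s) ∂μ :=
            lintegral_const_mul' _ _ (ENNReal.add_ne_top.mpr ⟨hKt, hVt⟩)
        _ < ⊤ := ENNReal.mul_lt_top (ENNReal.add_ne_top.mpr ⟨hKt, hVt⟩).lt_top h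
    have hae := ae_lt_top hmeas.lintegral_prod_right hfin.ne
    have hne : (ae ((volume : Measure ℂ).restrict (Metric.ball (0 : ℂ) (1 / 2)))).NeBot := by
      rw [ae_neBot, Ne, Measure.restrict_eq_zero]
      exact (Metric.measure_ball_pos volume (0 : ℂ) (by norm_num)).ne'
    obtain ⟨c, hc⟩ := hae.exists
    obtain ⟨c', hc'⟩ := ih (fun x => g x + c * f i x)
      (hg.add ((hf i).const_mul c)) hc
    refine ⟨Function.update c' i c, ?_⟩
    have heq : ∀ x, g x + ∑ j ∈ insert i S, Function.update c' i c j * f j x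
        = g x + c * f i x + ∑ j ∈ S, c' j * f j x := by
      intro x
      rw [Finset.sum_insert hi, Function.update_self, add_assoc]
      congr 2
      refine Finset.sum_congr rfl fun j hj => ?_
      rw [Function.update_of_ne (fun h : j = i => hi (h ▸ hj))]
    simp only [heq]
    exact hc'

theorem exists_comb {X ι : Type*} [MeasurableSpace X] (μ : Measure X) [SFinite μ] {s : ℝ}
    (hs : 0 < s) (hs2 : s < 2) (S : Finset ι) (f : ι → X → ℂ) (hf : ∀ i, Measurable (f i))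
    (h : ∫⁻ x, (S.sup fun i => ‖f i x‖ₑ) ^ (-s) ∂μ < ⊤) :
    ∃ c : ι → ℂ, ∫⁻ x, ‖∑ i ∈ S, c i * f i x‖ₑ ^ (-s) ∂μ < ⊤ := by
  obtain ⟨c, hc⟩ := comb_aux61 μ hs hs2 S f hf (fun _ => 0) measurable_const (by simpa using h)
  exact ⟨c, by simpa using hc⟩

end Pool.Agent.Helper12.KQ
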