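import Mathlib

/-!
# Project KQ (MP_bca9b8_ag): bounded klt complements for quotient singularities

Definitions. `X = ℂ^d / G`, `G` a finite subgroup of `GL_d(ℂ)` without pseudo-reflections.

* `theta z ∈ [0, 1)` for `|z| = 1`: `z = exp (2 π i theta z)`.
* `age g`: the sum of `theta` over the eigenvalues of `g` (with multiplicity). `X` is `ε`-lc
  (`ε ≤ 1`) if and only if `ε ≤ age g` for all `g ≠ 1` in `G` (Reid-Tai).
* `SemiInvariant G n h`: `h (g x) = det (g) ^ n h (x)`, so that `(dx_1 ∧ ... ∧ dx_d)^n / h` is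
  `G`-invariant and `B = (1/n) (div h) / G` satisfies `n (K_X + B) ~ 0`.
* `KltAtZero n h`: `|h| ^ (-2/n)` is integrable near `0`, that is, `(ℂ^d, (1/n) div h)` is klt at
  `0`, that is, `(X, B)` is klt at the image of `0`.
-/

set_option autoImplicit false

namespace Pool.Agent.Helper12.KQ

open MeasureTheory

/-- The number `θ ∈ [0, 1)` with `z = exp (2 π i θ)`, for `|z| = 1`. -/
noncomputable def theta (z : ℂ) : ℝ :=
  if 0 ≤ z.arg then z.arg / (2 * Real.pi) else z.arg / (2 * Real.pi) + 1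

/-- The age of a matrix of finite order: the sum of `theta z` over all eigenvalues `z`, with
multiplicity. -/
noncomputable def age {d : ℕ} (g : Matrix (Fin d) (Fin d) ℂ) : ℝ :=
  (g.charpoly.roots.map theta).sum

/-- `h (g x) = det (g) ^ n * h (x)` for all `g` in `G`. -/
def SemiInvariant {d : ℕ} (G : Subgroup (GL (Fin d) ℂ)) (n : ℕ) (h : MvPolynomial (Fin d) ℂ) :
    Prop :=
  ∀ g ∈ G, ∀ x : Fin d → ℂ,
    MvPolynomial.eval ((g : Matrix (Fin d) (Fin d) ℂ).mulVec x) h =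
      (g : Matrix (Fin d) (Fin d) ℂ).det ^ n * MvPolynomial.eval x h

/-- `|h| ^ (-2/n)` is integrable in a neighbourhood of `0` (`|h| ^ (-2/n) = ∞` where `h = 0`). -/
def KltAtZero {d : ℕ} (n : ℕ) (h : MvPolynomial (Fin d) ℂ) : Prop :=
  ∃ U ∈ nhds (0 : Fin d → ℂ), ∫⁻ x in U, ‖MvPolynomial.eval x h‖ₑ ^ (-(2 / (n : ℝ))) < ⊤

/-! ### Auxiliary definitions -/

/-- Diagonal matrices. -/
noncomputable def dg (d : ℕ) : (Fin d → ℂˣ) →* GL (Fin d) ℂ where
  toFun c := ⟨Matrix.diagonal fun i => (c i : ℂ), Matrix.diagonal fun i => ((c i)⁻¹ : ℂˣ),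
    by simp [Matrix.diagonal_mul_diagonal], by simp [Matrix.diagonal_mul_diagonal]⟩
  map_one' := by
    ext i j
    simp [Matrix.one_apply, Matrix.diagonal_apply]
  map_mul' a b := by
    apply Units.ext
    show Matrix.diagonal (fun i => ((a i * b i : ℂˣ) : ℂ)) =
      Matrix.diagonal (fun i => (a i : ℂ)) * Matrix.diagonal fun i => (b i : ℂ)
    rw [Matrix.diagonal_mul_diagonal]
    simp

theorem dg_coe {d : ℕ} (c : Fin d → ℂˣ) :
    ((dg d c : GL (Fin d) ℂ) : Matrix (Fin d) (Fin d) ℂ) =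
      Matrix.diagonal fun i => (c i : ℂ) := rfl

/-- The polynomial `h (g x)`. -/
noncomputable def lin {d : ℕ} (g : Matrix (Fin d) (Fin d) ℂ) (h : MvPolynomial (Fin d) ℂ) :
    MvPolynomial (Fin d) ℂ :=
  MvPolynomial.bind₁ (fun i => ∑ j, MvPolynomial.C (g i j) * MvPolynomial.X j) h

theorem eval_lin {d : ℕ} (g : Matrix (Fin d) (Fin d) ℂ) (h : MvPolynomial (Fin d) ℂ)
    (x : Fin d → ℂ) : MvPolynomial.eval x (lin g h) = MvPolynomial.eval (g.mulVec x) h := by
  rw [lin, MvPolynomial.eval, MvPolynomial.eval₂Hom_bind₁]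
  congr 1
  congr 1
  funext i
  simp [Matrix.mulVec, dotProduct]

end Pool.Agent.Helper12.KQ
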