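import Pool.Agent.Helper12.KQ.Defs

/-!
# Block KQ-D: simultaneous diagonalisation of finite abelian matrix groups

Standard. Proof. For a homomorphism `χ : A → ℂˣ` let `e_χ = |A|⁻¹ ∑_a χ(a)⁻¹ a`, a matrix. Then
`b e_χ = χ(b) e_χ` for `b ∈ A` (substitute `a ↦ b⁻¹ a`), and
`∑_χ e_χ = |A|⁻¹ ∑_a (∑_χ χ(a)⁻¹) a = 1`, because `∑_χ χ(a)⁻¹` is `|A|` for `a = 1` and `0`
otherwise (there is `χ` with `χ(a) ≠ 1`: `CommGroup.exists_apply_ne_one_of_hasEnoughRootsOfUnity`;
the number of characters is `|A|`: Mathlib, duality of finite abelian groups; if the second fact is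
inconvenient: `∑_χ e_χ = c • 1` with `c ≠ 0` is enough). So every vector is a sum of common
eigenvectors of `A`, the common eigenvectors span `ℂ^d`, and we can choose a basis of `ℂ^d` among
them (`exists_linearIndependent`, `Module.Basis.mk`...). Let `P⁻¹` be the matrix whose columns are
this basis.

(Alternative: Mathlib's results on commuting families of endomorphisms,
`Mathlib/LinearAlgebra/Eigenspace/Pi.lean`, elements of finite order are semisimple. Or induction on
`d`: if all elements are scalar we are done, otherwise split along the eigenspaces of one element.)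
-/

set_option autoImplicit false

namespace Pool.Agent.Helper12.KQ

open Module Polynomial

private theorem span_top {d : ℕ} (A : Subgroup (GL (Fin d) ℂ)) (hA : Finite A)
    (hc : ∀ a ∈ A, ∀ b ∈ A, a * b = b * a) :
    (⊤ : Submodule ℂ (Fin d → ℂ)) ≤ Submodule.span ℂ
      {v : Fin d → ℂ | ∀ a ∈ A, ∃ c : ℂ, (a : Matrix (Fin d) (Fin d) ℂ).mulVec v = c • v} := by
  let f : A → Module.End ℂ (Fin d → ℂ) := fun a => Matrix.toLin' ((a : GL (Fin d) ℂ) : Matrix _ _ ℂ)
  have hcomm : Pairwise fun i j => Commute (f i) (f j) := by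
    intro a b _
    show Matrix.toLin' _ * Matrix.toLin' _ = Matrix.toLin' _ * Matrix.toLin' _
    rw [Module.End.mul_eq_comp, Module.End.mul_eq_comp, ← Matrix.toLin'_mul, ← Matrix.toLin'_mul]
    congr 1
    exact congrArg Units.val (hc a a.2 b b.2)
  have hss : ∀ a, (f a).IsSemisimple := by
    intro a
    have hn : 0 < orderOf a := orderOf_pos a
    refine Module.End.isSemisimple_of_squarefree_aeval_eq_zero
      (p := X ^ orderOf a - 1) ?_ ?_
    · refine Polynomial.Separable.squarefree ?_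
      rw [Polynomial.X_pow_sub_one_separable_iff]
      exact_mod_cast hn.ne'
    · simp only [map_sub, map_pow, aeval_X, map_one]
      have h1 : (a : GL (Fin d) ℂ) ^ orderOf a = 1 := by
        rw [← Subgroup.coe_pow, pow_orderOf_eq_one, Subgroup.coe_one]
      have h2 : (((a : GL (Fin d) ℂ) : Matrix (Fin d) (Fin d) ℂ)) ^ orderOf a = 1 := by
        rw [← Units.val_pow_eq_pow_val, h1, Units.val_one]
      show (Matrix.toLin' _) ^ _ - 1 = 0
      rw [← Matrix.toLin'_pow, h2, Matrix.toLin'_one, sub_eq_zero]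
      rfl
  have htop := Module.End.iSup_iInf_maxGenEigenspace_eq_top_of_iSup_maxGenEigenspace_eq_top_of_commute
    f hcomm (fun a => Module.End.iSup_maxGenEigenspace_eq_top (f a))
  rw [← htop]
  refine iSup_le fun χ v hv => Submodule.subset_span ?_
  intro a ha
  refine ⟨χ ⟨a, ha⟩, ?_⟩
  have h := (Submodule.mem_iInf _).1 hv ⟨a, ha⟩
  rw [(hss ⟨a, ha⟩).isFinitelySemisimple.maxGenEigenspace_eq_eigenspace,
    Module.End.mem_eigenspace_iff] at h
  exact h

theorem exists_diag {d : ℕ} (A : Subgroup (GL (Fin d) ℂ)) (hA : Finite A)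
    (hc : ∀ a ∈ A, ∀ b ∈ A, a * b = b * a) :
    ∃ P : GL (Fin d) ℂ, ∀ a ∈ A, ∃ c : Fin d → ℂˣ, P * a * P⁻¹ = dg d c := by
  classical
  let b0 := Module.Basis.ofSpan (span_top A hA hc)
  have : Finite ((linearIndepOn_empty ℂ (id : (Fin d → ℂ) → Fin d → ℂ)).extend
      (Set.empty_subset {v : Fin d → ℂ | ∀ a ∈ A, ∃ c : ℂ,
        (a : Matrix (Fin d) (Fin d) ℂ).mulVec v = c • v})) := Module.Finite.finite_basis b0
  have hcard := Module.finrank_eq_nat_card_basis b0
  rw [Module.finrank_fin_fun] at hcard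
  let e := Finite.equivFinOfCardEq hcard.symm
  let b := b0.reindex e
  have hb : ∀ i, ∀ a ∈ A, ∃ c : ℂ, (a : Matrix (Fin d) (Fin d) ℂ).mulVec (b i) = c • b i := by
    intro i
    have h := Module.Basis.ofSpan_subset (span_top A hA hc) (Set.mem_range_self (e.symm i))
    simpa [b, b0, Module.Basis.reindex_apply] using h
  -- the matrix of the basis
  let M : Matrix (Fin d) (Fin d) ℂ := (Pi.basisFun ℂ (Fin d)).toMatrix b
  have hM : ∀ i j, M i j = b j i := by
    intro i j
    simp [M, Module.Basis.toMatrix_apply]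
  have hMM' : M * b.toMatrix (Pi.basisFun ℂ (Fin d)) = 1 :=
    Module.Basis.toMatrix_mul_toMatrix_flip _ _
  have hM'M : b.toMatrix (Pi.basisFun ℂ (Fin d)) * M = 1 :=
    Module.Basis.toMatrix_mul_toMatrix_flip _ _
  refine ⟨⟨b.toMatrix (Pi.basisFun ℂ (Fin d)), M, hM'M, hMM'⟩, ?_⟩
  intro a ha
  choose c hcc using fun i => hb i a ha
  -- the eigenvalues are nonzero
  have hc0 : ∀ i, c i ≠ 0 := by
    intro i h0
    have h1 := hcc i
    rw [h0, zero_smul] at h1
    have h2 : (((a⁻¹ : GL (Fin d) ℂ) : Matrix (Fin d) (Fin d) ℂ) * (a : Matrix (Fin d) (Fin d) ℂ)).mulVec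
        (b i) = 0 := by
      rw [← Matrix.mulVec_mulVec, h1, Matrix.mulVec_zero]
    rw [← Units.val_mul, inv_mul_cancel, Units.val_one, Matrix.one_mulVec] at h2
    exact b.ne_zero i h2
  refine ⟨fun i => Units.mk0 (c i) (hc0 i), ?_⟩
  rw [mul_inv_eq_iff_eq_mul]
  apply Units.ext
  -- multiply by M on both sides
  have key : (a : Matrix (Fin d) (Fin d) ℂ) * M = M * Matrix.diagonal c := by
    ext i j
    rw [Matrix.mul_diagonal, hM]
    have := congrFun (hcc j) i
    simp only [Matrix.mulVec, dotProduct, Pi.smul_apply, smul_eq_mul] at this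
    rw [Matrix.mul_apply]
    simp only [hM]
    rw [this, mul_comm]
  show b.toMatrix (Pi.basisFun ℂ (Fin d)) * (a : Matrix (Fin d) (Fin d) ℂ) =
    ((dg d fun i => Units.mk0 (c i) (hc0 i) : GL (Fin d) ℂ) : Matrix _ _ ℂ) * b.toMatrix (Pi.basisFun ℂ (Fin d))
  rw [dg_coe]
  simp only [Units.val_mk0]
  calc b.toMatrix (Pi.basisFun ℂ (Fin d)) * (a : Matrix (Fin d) (Fin d) ℂ)
      = b.toMatrix (Pi.basisFun ℂ (Fin d)) * ((a : Matrix (Fin d) (Fin d) ℂ) * M) *
          b.toMatrix (Pi.basisFun ℂ (Fin d)) := by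
        rw [Matrix.mul_assoc, Matrix.mul_assoc, hMM', Matrix.mul_one]
    _ = _ := by
        rw [key, ← Matrix.mul_assoc, hM'M, Matrix.one_mul]

end Pool.Agent.Helper12.KQ
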