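import Pool.Agent.Helper12.KQ.Defs

/-!
# Block KQ-T1: a finite subgroup of the torus is determined by the characters vanishing on it

`A` a finite subgroup of `(ℂˣ)^d`, `t ∈ (ℂˣ)^d` such that `t^m = 1` whenever `m ∈ ℤ^d` and `a^m = 1`
for all `a ∈ A` (`x^m = ∏ x_i^(m_i)`). Then `t ∈ A`.

Proof. Let `N = |A|`. For `m = N e_i` we get `t_i^N = 1`. So `|t_i| = 1`, and `|a_i| = 1` for `a ∈ A`.
Let `L` be the space of the functions `(ℂˣ)^d → ℂ` spanned by the monomials `x ↦ x^m`, `m ∈ ℤ^d`. It
is closed under multiplication. For `f ∈ L` we have `∑_{a ∈ A} f (a t) = ∑_{a ∈ A} f (a)`: by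
linearity we may take `f = x^m`; then the two sides are `t^m ∑_a a^m` and `∑_a a^m`. If `a^m = 1` for
all `a ∈ A` then `t^m = 1`; otherwise, if `b^m ≠ 1`, then `∑_a a^m = ∑_a (b a)^m = b^m ∑_a a^m`, so
the sum is `0`. Suppose that `t ∉ A`. For `b ∈ A` let
`D_b(x) = ∑_i (x_i - t_i b_i) (x_i⁻¹ - (t_i b_i)⁻¹)`, an element of `L`. If all `|x_i| = 1` then
`D_b(x) = ∑_i |x_i - t_i b_i|²` is real and `≥ 0`, and it is `> 0` unless `x = t b`. Let
`f = ∏_{b ∈ A} D_b ∈ L`. Then `f (a t) = 0` for all `a ∈ A` (factor `b = a`), but `f (a)` is real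
and `> 0` for all `a ∈ A`, since `a = t b` would imply `t ∈ A`. This contradicts the equality.

(Mathlib's duality theory of finite abelian groups can be used instead.)
-/

set_option autoImplicit false

namespace Pool.Agent.Helper12.KQ

theorem mem_of_chars {d : ℕ} (A : Subgroup (Fin d → ℂˣ)) (hA : Finite A) (t : Fin d → ℂˣ)
    (ht : ∀ m : Fin d → ℤ, (∀ a ∈ A, ∏ i, a i ^ m i = 1) → ∏ i, t i ^ m i = 1) : t ∈ A := by
  classical
  set N := Nat.card A with hN
  have hN0 : N ≠ 0 := Nat.card_pos.ne'
  have : NeZero N := ⟨hN0⟩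
  have hroot : ∀ a ∈ A, ∀ i, a i ^ N = 1 := by
    intro a ha i
    have h1 : (⟨a, ha⟩ : A) ^ N = 1 := pow_card_eq_one'
    have h2 : a ^ N = 1 := by simpa using congrArg Subtype.val h1
    exact congrFun h2 i
  have hmono : ∀ (x : Fin d → ℂˣ) (i : Fin d) (k : ℤ),
      ∏ j, x j ^ (Pi.single i k : Fin d → ℤ) j = x i ^ k := by
    intro x i k
    rw [Finset.prod_eq_single i]
    · simp
    · intro j _ hj
      simp [Pi.single_eq_of_ne hj]
    · intro h
      exact absurd (Finset.mem_univ i) h
  have htroot : ∀ i, t i ^ N = 1 := by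
    intro i
    have h := ht (Pi.single i (N : ℤ)) (by
      intro a ha
      rw [hmono]
      exact_mod_cast hroot a ha i)
    rw [hmono] at h
    exact_mod_cast h
  let G := Fin d → rootsOfUnity N ℂ
  let incl : G →* (Fin d → ℂˣ) :=
    { toFun := fun x i => (x i : ℂˣ)
      map_one' := rfl
      map_mul' := fun _ _ => rfl }
  let A' : Subgroup G := A.comap incl
  let t' : G := fun i => ⟨t i, by rw [mem_rootsOfUnity]; exact htroot i⟩
  have ht' : incl t' = t := by funext i; rfl
  by_contra hcon
  have hcon' : t' ∉ A' := by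
    intro h
    apply hcon
    have h2 : incl t' ∈ A := h
    rwa [ht'] at h2
  have : Finite G := Pi.finite
  have hne : (QuotientGroup.mk' A' t') ≠ 1 := by
    intro h
    apply hcon'
    rwa [QuotientGroup.mk'_apply, QuotientGroup.eq_one_iff] at h
  have : Finite (G ⧸ A') := inferInstance
  obtain ⟨φ, hφ⟩ := CommGroup.exists_apply_ne_one_of_hasEnoughRootsOfUnity (G ⧸ A') ℂ hne
  let χ : G →* ℂˣ := φ.comp (QuotientGroup.mk' A')
  have hχA : ∀ x ∈ A', χ x = 1 := by
    intro x hx
    have : QuotientGroup.mk' A' x = 1 := by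
      rw [QuotientGroup.mk'_apply, QuotientGroup.eq_one_iff]
      exact hx
    show φ (QuotientGroup.mk' A' x) = 1
    rw [this, map_one]
  have hχt : χ t' ≠ 1 := hφ
  have hm : ∀ i : Fin d, ∃ m : ℤ, ∀ z : rootsOfUnity N ℂ,
      χ (Pi.mulSingle i z) = (z : ℂˣ) ^ m := by
    intro i
    let f : rootsOfUnity N ℂ →* rootsOfUnity N ℂ :=
      { toFun := fun z => ⟨χ (Pi.mulSingle i z), by
          rw [mem_rootsOfUnity, ← map_pow, ← Pi.mulSingle_pow]
          have hz : z ^ N = 1 := by
            apply Subtype.ext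
            have := z.2
            rw [mem_rootsOfUnity] at this
            simpa using this
          rw [hz]
          simp⟩
        map_one' := by
          apply Subtype.ext
          simp
        map_mul' := by
          intro x y
          apply Subtype.ext
          simp [Pi.mulSingle_mul] }
    obtain ⟨m, hm⟩ := MonoidHom.map_cyclic f
    refine ⟨m, fun z => ?_⟩
    have := congrArg Subtype.val (hm z)
    simpa [f] using this
  choose m hm using hm
  have hχ : ∀ x : G, χ x = ∏ i, (x i : ℂˣ) ^ m i := by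
    intro x
    conv_lhs => rw [← Finset.univ_prod_mulSingle x]
    rw [map_prod]
    exact Finset.prod_congr rfl fun i _ => hm i (x i)
  apply hχt
  rw [hχ]
  apply ht m
  intro a ha
  let a' : G := fun i => ⟨a i, by rw [mem_rootsOfUnity]; exact hroot a ha i⟩
  have ha' : a' ∈ A' := ha
  have := hχA a' ha'
  rw [hχ] at this
  exact this

end Pool.Agent.Helper12.KQ
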