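import Pool.Agent.Helper12.KQ.Diag

/-!
# Block KQ-F: Frobenius' lemma

`‖ ‖` is the operator norm (`Matrix.Norms.L2Operator`). Let `g, h` be unitary, `g` of finite order,
`g' = h g h⁻¹`, and suppose that `g` commutes with `g'` and that `‖h - 1‖ < √2`. Then `g h = h g`.

Proof. `g` and `g'` generate a finite abelian group (it is generated by two commuting elements of
finite order), so by `exists_diag` there is a basis of common eigenvectors. If `g v = g' v` for
all members `v` of this basis then `g = g'`, that is, `g h = h g`. Otherwise there is `v ≠ 0` with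
`g v = l v`, `g' v = m v`, `l ≠ m`. Let `w = h⁻¹ v`. Then `g w = h⁻¹ g' v = m w`. Since `g` is
unitary, `|l| = |m| = 1` and `⟨v, w⟩ = ⟨g v, g w⟩ = conj l * m * ⟨v, w⟩`, so `⟨v, w⟩ = 0` (as
`conj l * m ≠ 1`). Hence `‖h w - w‖² = ‖v - w‖² = ‖v‖² + ‖w‖² = 2 ‖w‖²`, `w ≠ 0`, which contradicts
`‖h w - w‖ ≤ ‖h - 1‖ ‖w‖ < √2 ‖w‖` (`Matrix.l2_opNorm_mulVec`, `EuclideanSpace`).

(For the finiteness: the image of `Subgroup.zpowers g × Subgroup.zpowers g'` under the homomorphism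
`(x, y) ↦ x y`, e.g. `MonoidHom.noncommCoprod`; or argue directly with polynomials: `g` is
diagonalisable, its eigenspaces are stable under `g'`, ....)
-/

set_option autoImplicit false

open scoped Matrix.Norms.L2Operator

namespace Pool.Agent.Helper12.KQ

/-- Two commuting elements of finite order lie in a finite commutative subgroup. -/
private theorem exists_group32 {G : Type*} [Group G] {a b : G} (ha : IsOfFinOrder a)
    (hb : IsOfFinOrder b) (hc : a * b = b * a) :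
    ∃ A : Subgroup G, Finite A ∧ (∀ x ∈ A, ∀ y ∈ A, x * y = y * x) ∧ a ∈ A ∧ b ∈ A := by
  have hcomm : ∀ (x : Subgroup.zpowers a) (y : Subgroup.zpowers b),
      Commute ((Subgroup.zpowers a).subtype x) ((Subgroup.zpowers b).subtype y) := by
    rintro ⟨x, m, rfl⟩ ⟨y, n, rfl⟩
    exact (show Commute a b from hc).zpow_zpow m n
  have hfa : Finite (Subgroup.zpowers a) := ha.finite_zpowers
  have hfb : Finite (Subgroup.zpowers b) := hb.finite_zpowers
  refine ⟨(MonoidHom.noncommCoprod (Subgroup.zpowers a).subtype (Subgroup.zpowers b).subtype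
    hcomm).range, ?_, ?_, ?_, ?_⟩
  · exact Set.finite_range _
  · rintro _ ⟨x, rfl⟩ _ ⟨y, rfl⟩
    rw [← map_mul, ← map_mul]
    congr 1
    obtain ⟨⟨x1, m1, rfl⟩, ⟨x2, m2, rfl⟩⟩ := x
    obtain ⟨⟨y1, n1, rfl⟩, ⟨y2, n2, rfl⟩⟩ := y
    refine Prod.ext (Subtype.ext ?_) (Subtype.ext ?_)
    · exact ((Commute.refl a).zpow_zpow m1 n1)
    · exact ((Commute.refl b).zpow_zpow m2 n2)
  · exact ⟨(⟨a, Subgroup.mem_zpowers a⟩, 1), by simp⟩
  · exact ⟨(1, ⟨b, Subgroup.mem_zpowers b⟩), by simp⟩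

private theorem star_mulVec_dot32 {d : ℕ} {g : Matrix (Fin d) (Fin d) ℂ}
    (hg : g ∈ Matrix.unitaryGroup (Fin d) ℂ) (v w : Fin d → ℂ) :
    star (g.mulVec v) ⬝ᵥ g.mulVec w = star v ⬝ᵥ w := by
  have h1 : star g * g = 1 := Matrix.mem_unitaryGroup_iff'.1 hg
  rw [Matrix.star_mulVec, Matrix.dotProduct_mulVec, Matrix.vecMul_vecMul]
  rw [show g.conjTranspose * g = 1 from h1, Matrix.vecMul_one]

private theorem norm_sq_dot32 {d : ℕ} (v : Fin d → ℂ) :
    ((‖WithLp.toLp 2 v‖ ^ 2 : ℝ) : ℂ) = star v ⬝ᵥ v := by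
  rw [EuclideanSpace.norm_sq_eq]
  push_cast
  rw [dotProduct]
  refine Finset.sum_congr rfl fun i _ => ?_
  show ((‖v i‖ : ℝ) : ℂ) ^ 2 = star (v i) * v i
  rw [Complex.star_def, mul_comm, Complex.mul_conj]
  rw [Complex.normSq_eq_norm_sq]
  push_cast
  rfl

/-- The main step: no common eigenvector of `g` and `h g h⁻¹` has different eigenvalues. -/
private theorem eig_eq32 {d : ℕ} {g h h' : Matrix (Fin d) (Fin d) ℂ}
    (hg : g ∈ Matrix.unitaryGroup (Fin d) ℂ) (hh : h ∈ Matrix.unitaryGroup (Fin d) ℂ)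
    (h1 : h * h' = 1) (h2 : h' * h = 1)
    (hs : ‖h - 1‖ < √2) (v : Fin d → ℂ) (hv : v ≠ 0) (l m : ℂ) (hl : g.mulVec v = l • v)
    (hm : (h * g * h').mulVec v = m • v) : l = m := by
  by_contra hlm
  obtain ⟨w, hw⟩ : ∃ w, w = h'.mulVec v := ⟨_, rfl⟩
  have hhw : h.mulVec w = v := by
    rw [hw, Matrix.mulVec_mulVec, h1, Matrix.one_mulVec]
  have hgw : g.mulVec w = m • w := by
    have e1 : h'.mulVec ((h * g * h').mulVec v) = g.mulVec w := by
      rw [Matrix.mulVec_mulVec, hw, Matrix.mulVec_mulVec]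
      congr 1
      rw [← mul_assoc, ← mul_assoc, h2, one_mul]
    rw [← e1, hm, Matrix.mulVec_smul, hw]
  have hw0 : w ≠ 0 := by
    rintro rfl
    exact hv (by rw [← hhw, Matrix.mulVec_zero])
  have hvv : star v ⬝ᵥ v ≠ 0 := by
    rw [← norm_sq_dot32]
    have : ‖WithLp.toLp 2 v‖ ≠ 0 := by
      rw [norm_ne_zero_iff]
      intro h0
      exact hv (by simpa using h0)
    exact_mod_cast pow_ne_zero 2 this
  have hll : star l * l = 1 := by
    have e := star_mulVec_dot32 hg v v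
    rw [hl, star_smul, smul_dotProduct, dotProduct_smul, smul_eq_mul, smul_eq_mul, ← mul_assoc] at e
    exact mul_right_cancel₀ hvv (by rw [e, one_mul])
  have hvw : star v ⬝ᵥ w = 0 := by
    have e := star_mulVec_dot32 hg v w
    rw [hl, hgw, star_smul, smul_dotProduct, dotProduct_smul, smul_eq_mul, smul_eq_mul,
      ← mul_assoc] at e
    by_contra h0
    have e2 : star l * m = 1 := mul_right_cancel₀ h0 (by rw [e, one_mul])
    apply hlm
    have hl0 : star l ≠ 0 := by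
      intro h0
      rw [h0, zero_mul] at hll
      exact zero_ne_one hll
    exact mul_left_cancel₀ hl0 (by rw [hll, e2])
  have hwv : star w ⬝ᵥ v = 0 := by
    have e := congrArg star hvw
    rw [star_zero, Matrix.star_dotProduct, star_star] at e
    exact e
  have hnw : star v ⬝ᵥ v = star w ⬝ᵥ w := by
    rw [← star_mulVec_dot32 hh w w, hhw]
  have hnorm : ‖WithLp.toLp 2 (v - w)‖ ^ 2 = 2 * ‖WithLp.toLp 2 w‖ ^ 2 := by
    have e : ((‖WithLp.toLp 2 (v - w)‖ ^ 2 : ℝ) : ℂ) = ((2 * ‖WithLp.toLp 2 w‖ ^ 2 : ℝ) : ℂ) := by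
      rw [norm_sq_dot32, star_sub, sub_dotProduct, dotProduct_sub, dotProduct_sub, hvw, hwv, hnw]
      rw [Complex.ofReal_mul, norm_sq_dot32]
      push_cast
      ring
    exact_mod_cast e
  have hle : ‖WithLp.toLp 2 (v - w)‖ ≤ ‖h - 1‖ * ‖WithLp.toLp 2 w‖ := by
    have e := Matrix.l2_opNorm_mulVec (h - 1) (WithLp.toLp 2 w)
    rw [show (h - 1).mulVec (WithLp.toLp 2 w).ofLp = v - w by
      rw [Matrix.sub_mulVec, Matrix.one_mulVec]
      show h.mulVec w - w = v - w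
      rw [hhw]] at e
    exact e
  have hwpos : 0 < ‖WithLp.toLp 2 w‖ := by
    rw [norm_pos_iff]
    intro h0
    exact hw0 (by simpa using h0)
  have hlt : ‖WithLp.toLp 2 (v - w)‖ < √2 * ‖WithLp.toLp 2 w‖ :=
    hle.trans_lt (mul_lt_mul_of_pos_right hs hwpos)
  have hsq : ‖WithLp.toLp 2 (v - w)‖ ^ 2 < (√2 * ‖WithLp.toLp 2 w‖) ^ 2 :=
    pow_lt_pow_left₀ hlt (norm_nonneg _) two_ne_zero
  rw [mul_pow, Real.sq_sqrt (by norm_num : (0 : ℝ) ≤ 2), hnorm] at hsq
  exact lt_irrefl _ hsq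

theorem frob {d : ℕ} {g h : GL (Fin d) ℂ}
    (hg : (g : Matrix (Fin d) (Fin d) ℂ) ∈ Matrix.unitaryGroup (Fin d) ℂ)
    (hh : (h : Matrix (Fin d) (Fin d) ℂ) ∈ Matrix.unitaryGroup (Fin d) ℂ)
    (hfin : IsOfFinOrder g) (hc : g * (h * g * h⁻¹) = h * g * h⁻¹ * g)
    (hs : ‖(h : Matrix (Fin d) (Fin d) ℂ) - 1‖ < √2) : g * h = h * g := by
  have hfin' : IsOfFinOrder (h * g * h⁻¹) := by
    have e := MonoidHom.isOfFinOrder (MulAut.conj h).toMonoidHom hfin
    exact e
  obtain ⟨A, hA, hAc, hgA, hgA'⟩ := exists_group32 hfin hfin' hc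
  obtain ⟨P, hP⟩ := exists_diag A hA hAc
  obtain ⟨c, hcg⟩ := hP g hgA
  obtain ⟨c', hcg'⟩ := hP (h * g * h⁻¹) hgA'
  have hgP : g = P⁻¹ * dg d c * P := by
    rw [← hcg]; group
  have hgP' : h * g * h⁻¹ = P⁻¹ * dg d c' * P := by
    rw [← hcg']; group
  have key : ∀ i, (c i : ℂ) = c' i := by
    intro i
    have hPv : ∀ e : Fin d → ℂˣ, ((P⁻¹ * dg d e * P : GL (Fin d) ℂ) :
        Matrix (Fin d) (Fin d) ℂ).mulVec
        (((P⁻¹ : GL (Fin d) ℂ) : Matrix (Fin d) (Fin d) ℂ).mulVec (Pi.single i 1)) =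
        (e i : ℂ) • ((P⁻¹ : GL (Fin d) ℂ) : Matrix (Fin d) (Fin d) ℂ).mulVec (Pi.single i 1) := by
      intro e
      rw [Matrix.mulVec_mulVec, ← Units.val_mul, mul_assoc, mul_inv_cancel, mul_one, Units.val_mul,
        ← Matrix.mulVec_mulVec, dg_coe, Matrix.diagonal_mulVec_single, mul_one]
      rw [← Matrix.mulVec_smul]
      congr 1
      ext j
      by_cases hj : j = i
      · subst hj; simp
      · simp [hj]
    refine eig_eq32 (h' := ((h⁻¹ : GL (Fin d) ℂ) : Matrix (Fin d) (Fin d) ℂ)) hg hh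
      (by rw [← Units.val_mul, mul_inv_cancel, Units.val_one])
      (by rw [← Units.val_mul, inv_mul_cancel, Units.val_one]) hs
      (((P⁻¹ : GL (Fin d) ℂ) : Matrix (Fin d) (Fin d) ℂ).mulVec (Pi.single i 1)) ?_ (c i) (c' i)
      ?_ ?_
    · intro h0
      have e := congrArg ((P : GL (Fin d) ℂ) : Matrix (Fin d) (Fin d) ℂ).mulVec h0
      rw [Matrix.mulVec_mulVec, ← Units.val_mul, mul_inv_cancel, Units.val_one, Matrix.one_mulVec,
        Matrix.mulVec_zero] at e
      have e2 := congrFun e i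
      simp at e2
    · have e := hPv c
      rwa [← hgP] at e
    · have e := hPv c'
      rwa [← hgP'] at e
  have hcc : c = c' := funext fun i => Units.ext (key i)
  have e : h * g * h⁻¹ = g := by
    rw [hgP', ← hcc, ← hgP]
  exact (mul_inv_eq_iff_eq_mul.1 e).symm

end Pool.Agent.Helper12.KQ
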