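import Pool.Agent.Helper12.KQ.Defs

/-!
# Block KQ-U: finite matrix groups are conjugate to unitary groups

Let `H = ∑_{g ∈ G} gᴴ g`. It is positive definite (every `gᴴ g` is, `g` being invertible, and the
sum is not empty), so `H = Pᴴ P` with `P` a matrix (`Matrix.posSemidef_iff_eq_conjTranspose_mul_self`
or the square root), and `P` is invertible because `det H ≠ 0`. For `u ∈ G`: `uᴴ H u = H`
(substitute `g ↦ g u`). Hence `(P u P⁻¹)ᴴ (P u P⁻¹) = (P⁻¹)ᴴ uᴴ Pᴴ P u P⁻¹ = (P⁻¹)ᴴ H P⁻¹ = 1`.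
-/

set_option autoImplicit false

namespace Pool.Agent.Helper12.KQ

open scoped ComplexOrder MatrixOrder in
theorem exists_unitary {d : ℕ} (G : Subgroup (GL (Fin d) ℂ)) (hG : Finite G) :
    ∃ P : GL (Fin d) ℂ, ∀ g ∈ G, ((P * g * P⁻¹ : GL (Fin d) ℂ) : Matrix (Fin d) (Fin d) ℂ) ∈
      Matrix.unitaryGroup (Fin d) ℂ := by
  classical
  have := hG
  let _ : Fintype G := Fintype.ofFinite G
  obtain ⟨H, hH⟩ : ∃ H : Matrix (Fin d) (Fin d) ℂ, H = ∑ g : G,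
      star ((g : GL (Fin d) ℂ) : Matrix (Fin d) (Fin d) ℂ) * ((g : GL (Fin d) ℂ) : Matrix (Fin d) (Fin d) ℂ) :=
    ⟨_, rfl⟩
  have hpd : H.PosDef := by
    rw [hH, ← Finset.add_sum_erase Finset.univ _ (Finset.mem_univ (1 : G))]
    refine Matrix.PosDef.add_posSemidef ?_ (Matrix.posSemidef_sum _ fun g _ => ?_)
    · simpa using (Matrix.PosDef.one : (1 : Matrix (Fin d) (Fin d) ℂ).PosDef)
    · exact Matrix.posSemidef_conjTranspose_mul_self _
  have hinv : ∀ u ∈ G, star (u : Matrix (Fin d) (Fin d) ℂ) * H * (u : Matrix (Fin d) (Fin d) ℂ) = H := by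
    intro u hu
    rw [hH, Finset.mul_sum, Finset.sum_mul]
    refine Fintype.sum_equiv (Equiv.mulRight (⟨u, hu⟩ : G)) _ _ fun g => ?_
    rw [Equiv.coe_mulRight, Subgroup.coe_mul, Units.val_mul, star_mul]
    simp only [mul_assoc]
  obtain ⟨B, hB⟩ := CStarAlgebra.nonneg_iff_eq_star_mul_self.mp hpd.posSemidef.nonneg
  have hBu : IsUnit B := by
    rw [Matrix.isUnit_iff_isUnit_det]
    have h1 := (Matrix.isUnit_iff_isUnit_det _).1 hpd.isUnit
    rw [hB, Matrix.det_mul] at h1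
    exact isUnit_of_mul_isUnit_right h1
  obtain ⟨P, hP⟩ := hBu
  refine ⟨P, fun g hg => ?_⟩
  rw [Matrix.mem_unitaryGroup_iff', Units.val_mul, Units.val_mul, star_mul, star_mul]
  have h1 : (P : Matrix (Fin d) (Fin d) ℂ) * ((P⁻¹ : GL (Fin d) ℂ) : Matrix (Fin d) (Fin d) ℂ) = 1 :=
    Units.mul_inv P
  have h2 : star ((P⁻¹ : GL (Fin d) ℂ) : Matrix (Fin d) (Fin d) ℂ) * star (P : Matrix (Fin d) (Fin d) ℂ) = 1 := by
    rw [← star_mul, h1, star_one]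
  calc star ((P⁻¹ : GL (Fin d) ℂ) : Matrix (Fin d) (Fin d) ℂ) * (star (g : Matrix (Fin d) (Fin d) ℂ) *
        star (P : Matrix (Fin d) (Fin d) ℂ)) * ((P : Matrix (Fin d) (Fin d) ℂ) * (g : Matrix (Fin d) (Fin d) ℂ) *
        ((P⁻¹ : GL (Fin d) ℂ) : Matrix (Fin d) (Fin d) ℂ)) =
      star ((P⁻¹ : GL (Fin d) ℂ) : Matrix (Fin d) (Fin d) ℂ) * (star (g : Matrix (Fin d) (Fin d) ℂ) *
        (star (P : Matrix (Fin d) (Fin d) ℂ) * (P : Matrix (Fin d) (Fin d) ℂ)) *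
        (g : Matrix (Fin d) (Fin d) ℂ)) * ((P⁻¹ : GL (Fin d) ℂ) : Matrix (Fin d) (Fin d) ℂ) := by
        simp only [mul_assoc]
    _ = 1 := by
        rw [hP, ← hB, hinv g hg, hB, ← hP, ← mul_assoc, h2, one_mul, h1]

end Pool.Agent.Helper12.KQ
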