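import Pool.Agent.Helper12.KQ.Near
import Pool.Agent.Helper12.KQ.Unit

/-!
# Block KQ-J2: Jordan's theorem

Every finite subgroup `G` of `GL_d(ℂ)` has an abelian subgroup of index at most `J(d)`.

Proof. The unit ball of the matrices (operator norm; finite dimension, so proper space) is compact,
hence covered by finitely many balls of radius `1/4`, say `J` of them (centres `c_1, ..., c_J`).
Let `G` be finite. By `exists_unitary` there is `P` such that `G' = P G P⁻¹` consists of unitary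
matrices. Let `A'` be the subgroup generated by `{g ∈ G' | ‖g - 1‖ < 1/2}`. It is abelian by
`near_comm` (`Subgroup.closure_induction₂` or `Subgroup.isMulCommutative_closure`-type lemma).
Put every `g ∈ G'` into a ball with centre `c_i` (unitary matrices have norm `≤ 1`); if `g, h` are
in the same ball then `‖g - h‖ < 1/2`, so `‖g⁻¹ h - 1‖ = ‖h - g‖ < 1/2` and `g⁻¹ h ∈ A'`. So the
number of cosets `g A'` in `G'` is at most `J`: `A'.relIndex G' ≤ J` (the map from `Fin J` to the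
cosets choosing, for a ball containing an element of `G'`, the coset of one such element, is onto).
Finally `A = P⁻¹ A' P` (use `Subgroup.map` of `MulAut.conj`; the index is preserved because
conjugation is an automorphism: `Subgroup.relIndex_map_map_of_injective` or so).
-/

set_option autoImplicit false

open scoped Matrix.Norms.L2Operator

namespace Pool.Agent.Helper12.KQ

private theorem cover50 (d : ℕ) : ∃ t : Set (Matrix (Fin d) (Fin d) ℂ), t.Finite ∧
    ∀ U ∈ Matrix.unitaryGroup (Fin d) ℂ, ∃ c ∈ t, ‖U - c‖ < 1 / 4 := by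
  have : ProperSpace (Matrix (Fin d) (Fin d) ℂ) := FiniteDimensional.proper ℂ _
  obtain ⟨t, -, ht, h⟩ := (isCompact_closedBall (0 : Matrix (Fin d) (Fin d) ℂ) 1).finite_cover_balls
    (by norm_num : (0 : ℝ) < 1 / 4)
  refine ⟨t, ht, fun U hU => ?_⟩
  have hn : ‖U‖ ≤ 1 := by
    rcases subsingleton_or_nontrivial (Matrix (Fin d) (Fin d) ℂ) with hs | hs
    · rw [Subsingleton.elim U 0, norm_zero]
      norm_num
    · exact (CStarRing.norm_of_mem_unitary hU).le
  have hm := h (mem_closedBall_zero_iff.2 hn)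
  obtain ⟨c, hc, hcU⟩ := Set.mem_iUnion₂.1 hm
  refine ⟨c, hc, ?_⟩
  rw [mem_ball_iff_norm] at hcU
  exact hcU

private theorem abel50 {d : ℕ} {s : Set (GL (Fin d) ℂ)} (hs : ∀ a ∈ s, ∀ b ∈ s, a * b = b * a) :
    ∀ a ∈ Subgroup.closure s, ∀ b ∈ Subgroup.closure s, a * b = b * a := by
  intro a ha b hb
  refine Subgroup.closure_induction₂ (p := fun a b _ _ => a * b = b * a) ?_ ?_ ?_ ?_ ?_ ?_ ?_ ha hb
  · exact fun x y hx hy => hs x hx y hy
  · intro x _
    rw [one_mul, mul_one]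
  · intro x _
    rw [one_mul, mul_one]
  · intro x y z _ _ _ h1 h2
    rw [mul_assoc, h2, ← mul_assoc, h1, mul_assoc]
  · intro y z x _ _ _ h1 h2
    rw [← mul_assoc, h1, mul_assoc, h2, mul_assoc]
  · intro x y _ _ h
    exact (Commute.inv_left (a := x) (b := y) h).eq
  · intro x y _ _ h
    exact (Commute.inv_right (a := x) (b := y) h).eq

private theorem jordanU50 (d : ℕ) : ∃ J : ℕ, ∀ G : Subgroup (GL (Fin d) ℂ), Finite G →
    (∀ g ∈ G, (g : Matrix (Fin d) (Fin d) ℂ) ∈ Matrix.unitaryGroup (Fin d) ℂ) →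
    ∃ A : Subgroup (GL (Fin d) ℂ), A ≤ G ∧ (∀ a ∈ A, ∀ b ∈ A, a * b = b * a) ∧
      A.relIndex G ≤ J := by
  classical
  obtain ⟨t, ht, hcov⟩ := cover50 d
  refine ⟨Nat.card t, fun G hG hU => ?_⟩
  set s : Set (GL (Fin d) ℂ) := {g | g ∈ G ∧ ‖(g : Matrix (Fin d) (Fin d) ℂ) - 1‖ < 1 / 2} with hs
  have hsG : Subgroup.closure s ≤ G := (Subgroup.closure_le G).2 fun g hg => hg.1
  refine ⟨Subgroup.closure s, hsG, abel50 fun a ha b hb => near_comm G hG hU ha.1 hb.1 ha.2 hb.2, ?_⟩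
  have hfin : Finite t := ht
  choose! c hc hc' using hcov
  let f : (G ⧸ (Subgroup.closure s).subgroupOf G) → t := fun q =>
    ⟨c ((q.out : G) : GL (Fin d) ℂ), hc _ (hU _ (q.out : G).2)⟩
  have hf : Function.Injective f := by
    intro q q' h
    have h1 : c ((q.out : G) : GL (Fin d) ℂ) = c ((q'.out : G) : GL (Fin d) ℂ) := congrArg Subtype.val h
    have h2 := hc' _ (hU _ (q.out : G).2)
    have h3 := hc' _ (hU _ (q'.out : G).2)
    rw [← h1] at h3
    rw [← q.out_eq, ← q'.out_eq]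
    refine Quotient.sound ?_
    show (QuotientGroup.leftRel ((Subgroup.closure s).subgroupOf G)) (q.out) (q'.out)
    rw [QuotientGroup.leftRel_apply, Subgroup.mem_subgroupOf]
    refine Subgroup.subset_closure ⟨((q.out)⁻¹ * q'.out).2, ?_⟩
    have h4 : ‖(((q'.out : G) : GL (Fin d) ℂ) : Matrix (Fin d) (Fin d) ℂ) - ((q.out : G) : GL (Fin d) ℂ)‖ < 1 / 2 := by
      calc ‖(((q'.out : G) : GL (Fin d) ℂ) : Matrix (Fin d) (Fin d) ℂ) - ((q.out : G) : GL (Fin d) ℂ)‖
          = ‖((((q'.out : G) : GL (Fin d) ℂ) : Matrix (Fin d) (Fin d) ℂ) - c ((q.out : G) : GL (Fin d) ℂ)) -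
              ((((q.out : G) : GL (Fin d) ℂ) : Matrix (Fin d) (Fin d) ℂ) - c ((q.out : G) : GL (Fin d) ℂ))‖ := by
            congr 1; abel
        _ ≤ _ := norm_sub_le _ _
        _ < 1 / 4 + 1 / 4 := add_lt_add h3 h2
        _ = 1 / 2 := by norm_num
    have h5 : ((((q.out)⁻¹ * q'.out : G) : GL (Fin d) ℂ) : Matrix (Fin d) (Fin d) ℂ) - 1 =
        (((q.out)⁻¹ : G) : GL (Fin d) ℂ) * ((((q'.out : G) : GL (Fin d) ℂ) : Matrix (Fin d) (Fin d) ℂ) - ((q.out : G) : GL (Fin d) ℂ)) := by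
      rw [mul_sub, ← Units.val_mul, ← Units.val_mul, ← Subgroup.coe_mul, ← Subgroup.coe_mul, inv_mul_cancel]
      rfl
    rw [h5, CStarRing.norm_mem_unitary_mul _ (hU _ ((q.out)⁻¹ : G).2)]
    exact h4
  exact Nat.card_le_card_of_injective f hf

theorem jordan (d : ℕ) : ∃ J : ℕ, ∀ G : Subgroup (GL (Fin d) ℂ), Finite G →
    ∃ A : Subgroup (GL (Fin d) ℂ), A ≤ G ∧ (∀ a ∈ A, ∀ b ∈ A, a * b = b * a) ∧
      A.relIndex G ≤ J := by
  obtain ⟨J, hJ⟩ := jordanU50 d
  refine ⟨J, fun G hG => ?_⟩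
  obtain ⟨P, hP⟩ := exists_unitary G hG
  let f : GL (Fin d) ℂ →* GL (Fin d) ℂ := (MulAut.conj P).toMonoidHom
  have hf : Function.Injective f := (MulAut.conj P).injective
  have hG' : Finite (G.map f) := by
    have h1 : (f '' (G : Set (GL (Fin d) ℂ))).Finite := (Set.toFinite (G : Set (GL (Fin d) ℂ))).image f
    exact h1.to_subtype
  obtain ⟨A, hA1, hA2, hA3⟩ := hJ (G.map f) hG' (by
    rintro _ ⟨g, hg, rfl⟩
    exact hP g hg)
  refine ⟨A.comap f, ?_, ?_, ?_⟩
  · intro a ha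
    obtain ⟨g, hg, hga⟩ := hA1 ha
    rw [← hf hga]
    exact hg
  · intro a ha b hb
    apply hf
    rw [map_mul, map_mul]
    exact hA2 _ ha _ hb
  · rw [Subgroup.relIndex_comap]
    exact hA3

end Pool.Agent.Helper12.KQ
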