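import Pool.Agent.Helper12.KQ.Prod

/-!
# Block KQ-N: the norm of a semi-invariant

Let `A ≤ G`, `j = [G : A]`, `h (a x) = det (a)^n h (x)` for `a ∈ A`. Choose a finite set `R ⊆ G` of
representatives of the cosets `A r` (`r ∈ G`), `|R| = j`, and let `h' = ∏_{r ∈ R} h (r x)`
(`lin r h`, `eval_lin`). Let `u ∈ G`. For `r ∈ R` we have `r u = a_r σ(r)` with `a_r ∈ A` and
`σ(r) ∈ R`, and `σ` is a permutation of `R`. So `h (r u x) = det (a_r)^n h (σ(r) x)` and
`det (a_r) = det (r) det (u) det (σ(r))⁻¹`. Taking the product over `r ∈ R`: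
`h' (u x) = ∏_r det (a_r)^n * h' (x)` and `∏_r det (a_r) = det (u)^j`. So
`h' (u x) = det (u)^(n j) h' (x)`. `h'` is klt by `klt_lin` and `klt_prod`.

(Multiplicative form of the computation: the function `F (r) = h (r x) * det (r)^(-n)` on `G`, for
fixed `x`, is constant on the cosets `A r`, so `∏` over `A \ G` is well defined and invariant under
`r ↦ r u`. `Quotient (QuotientGroup.rightRel (A.subgroupOf G))` is the set of the cosets `A r`;
alternatively use left cosets `s A` of the inverses: `r = s⁻¹`, `s ∈ G ⧸ A.subgroupOf G`, with the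
action of `G` on `G ⧸ A` by left multiplication: `F' (s) = h (s⁻¹ x) det (s)^n` depends only on
`s A`, `(s a)⁻¹ = a⁻¹ s⁻¹`.)
-/

set_option autoImplicit false

namespace Pool.Agent.Helper12.KQ

private noncomputable def F_h54 {d : ℕ} (n : ℕ) (h : MvPolynomial (Fin d) ℂ) (x : Fin d → ℂ)
    (s : GL (Fin d) ℂ) : ℂ :=
  MvPolynomial.eval (((s⁻¹ : GL (Fin d) ℂ) : Matrix (Fin d) (Fin d) ℂ).mulVec x) h *
    (s : Matrix (Fin d) (Fin d) ℂ).det ^ n

private theorem det_mul_inv_h54 {d : ℕ} (a : GL (Fin d) ℂ) :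
    ((a⁻¹ : GL (Fin d) ℂ) : Matrix (Fin d) (Fin d) ℂ).det *
      (a : Matrix (Fin d) (Fin d) ℂ).det = 1 := by
  rw [← Matrix.det_mul, ← Units.val_mul]
  simp

private theorem F_mul_h54 {d : ℕ} {n : ℕ} {A : Subgroup (GL (Fin d) ℂ)}
    {h : MvPolynomial (Fin d) ℂ} (hs : SemiInvariant A n h) (x : Fin d → ℂ)
    (s a : GL (Fin d) ℂ) (ha : a ∈ A) : F_h54 n h x (s * a) = F_h54 n h x s := by
  have h1 := hs a⁻¹ (A.inv_mem ha) (((s⁻¹ : GL (Fin d) ℂ) : Matrix (Fin d) (Fin d) ℂ).mulVec x)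
  rw [Matrix.mulVec_mulVec, ← Units.val_mul] at h1
  have h2 := det_mul_inv_h54 a
  rw [F_h54, F_h54, mul_inv_rev, h1, Units.val_mul, Matrix.det_mul, mul_pow]
  have h3 : (((a⁻¹ : GL (Fin d) ℂ) : Matrix (Fin d) (Fin d) ℂ).det) ^ n *
      ((a : Matrix (Fin d) (Fin d) ℂ).det) ^ n = 1 := by
    rw [← mul_pow, h2, one_pow]
  linear_combination (MvPolynomial.eval
    (((s⁻¹ : GL (Fin d) ℂ) : Matrix (Fin d) (Fin d) ℂ).mulVec x) h *
    (s : Matrix (Fin d) (Fin d) ℂ).det ^ n) * h3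

private theorem F_shift_h54 {d : ℕ} (n : ℕ) (h : MvPolynomial (Fin d) ℂ) (x : Fin d → ℂ)
    (u s : GL (Fin d) ℂ) :
    F_h54 n h ((u : Matrix (Fin d) (Fin d) ℂ).mulVec x) s =
      F_h54 n h x (u⁻¹ * s) * (u : Matrix (Fin d) (Fin d) ℂ).det ^ n := by
  have h2 := det_mul_inv_h54 u
  have h3 : (((u⁻¹ : GL (Fin d) ℂ) : Matrix (Fin d) (Fin d) ℂ).det) ^ n *
      ((u : Matrix (Fin d) (Fin d) ℂ).det) ^ n = 1 := by
    rw [← mul_pow, h2, one_pow]
  rw [F_h54, F_h54, mul_inv_rev, inv_inv, Matrix.mulVec_mulVec, ← Units.val_mul, Units.val_mul u⁻¹,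
    Matrix.det_mul, mul_pow]
  linear_combination (-(MvPolynomial.eval
    (((s⁻¹ * u : GL (Fin d) ℂ) : Matrix (Fin d) (Fin d) ℂ).mulVec x) h *
    (s : Matrix (Fin d) (Fin d) ℂ).det ^ n)) * h3

theorem norm_step {d n : ℕ} (hn : 0 < n) (G A : Subgroup (GL (Fin d) ℂ)) (hG : Finite G)
    (hAG : A ≤ G) {h : MvPolynomial (Fin d) ℂ} (hs : SemiInvariant A n h) (hk : KltAtZero n h) :
    ∃ h' : MvPolynomial (Fin d) ℂ, SemiInvariant G (n * A.relIndex G) h' ∧
      KltAtZero (n * A.relIndex G) h' := by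
  classical
  have : Fintype (G ⧸ A.subgroupOf G) := Fintype.ofFinite _
  have hj : A.relIndex G = (Finset.univ : Finset (G ⧸ A.subgroupOf G)).card := by
    rw [Subgroup.relIndex, Subgroup.index, Nat.card_eq_fintype_card, Finset.card_univ]
  refine ⟨∏ s : G ⧸ A.subgroupOf G,
    lin ((((Quotient.out s)⁻¹ : G) : GL (Fin d) ℂ) : Matrix (Fin d) (Fin d) ℂ) h, ?_, ?_⟩
  · intro u hu x
    set D : ℂ := ∏ s : G ⧸ A.subgroupOf G,
      (((Quotient.out s : G) : GL (Fin d) ℂ) : Matrix (Fin d) (Fin d) ℂ).det ^ n with hD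
    have hD0 : D ≠ 0 := by
      rw [hD, Finset.prod_ne_zero_iff]
      intro s _
      exact pow_ne_zero _ (right_ne_zero_of_mul_eq_one (det_mul_inv_h54 _))
    have key : ∀ y : Fin d → ℂ, MvPolynomial.eval y (∏ s : G ⧸ A.subgroupOf G,
        lin ((((Quotient.out s)⁻¹ : G) : GL (Fin d) ℂ) : Matrix (Fin d) (Fin d) ℂ) h) * D =
        ∏ s : G ⧸ A.subgroupOf G, F_h54 n h y ((Quotient.out s : G) : GL (Fin d) ℂ) := by
      intro y
      rw [map_prod, hD, ← Finset.prod_mul_distrib]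
      refine Finset.prod_congr rfl fun s _ => ?_
      rw [eval_lin, F_h54]
      rfl
    have hFQ : ∀ g : G, F_h54 n h x ((Quotient.out (QuotientGroup.mk g : G ⧸ A.subgroupOf G) : G) :
        GL (Fin d) ℂ) = F_h54 n h x (g : GL (Fin d) ℂ) := by
      intro g
      obtain ⟨a, ha⟩ := QuotientGroup.mk_out_eq_mul (A.subgroupOf G) g
      rw [ha]
      push_cast
      exact F_mul_h54 hs x _ _ (Subgroup.mem_subgroupOf.1 a.2)
    apply mul_right_cancel₀ hD0
    rw [key, mul_assoc, key, hj]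
    have h1 : ∀ s : G ⧸ A.subgroupOf G, F_h54 n h ((u : Matrix (Fin d) (Fin d) ℂ).mulVec x)
        ((Quotient.out s : G) : GL (Fin d) ℂ) =
        F_h54 n h x ((Quotient.out ((⟨u, hu⟩ : G)⁻¹ • s) : G) : GL (Fin d) ℂ) *
          (u : Matrix (Fin d) (Fin d) ℂ).det ^ n := by
      intro s
      rw [F_shift_h54]
      congr 1
      have h2 : (⟨u, hu⟩ : G)⁻¹ • s =
          (QuotientGroup.mk ((⟨u, hu⟩ : G)⁻¹ * Quotient.out s) : G ⧸ A.subgroupOf G) := by
        conv_lhs => rw [← QuotientGroup.out_eq' s]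
        rfl
      rw [h2, hFQ]
      rfl
    rw [Finset.prod_congr rfl fun s _ => h1 s, Finset.prod_mul_distrib, Finset.prod_const,
      ← pow_mul, mul_comm]
    congr 1
    exact Fintype.prod_equiv (MulAction.toPerm ((⟨u, hu⟩ : G)⁻¹)) _ _ fun s => rfl
  · rw [hj]
    exact klt_prod hn Finset.univ ⟨QuotientGroup.mk 1, Finset.mem_univ _⟩ _ fun s _ =>
      klt_lin _ hk

end Pool.Agent.Helper12.KQ
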