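import Pool.Agent.Helper12.KQ.Defs

/-!
# Block KQ-T3: from directions to a convex combination

Let `T = {m ∈ M | -k ≤ m_i for all i}` (real vectors), `0 ∈ T`, `C` its convex hull, and let `O` be
the open convex set `{y | y_i < 0 for all i}` of `ℝ^d`. If `C` meets `O` we are done: an element of
the convex hull is a finite convex combination of elements of `T`
(`mem_convexHull_iff_exists_fintype`, `convexHull_eq` or `Finset.mem_convexHull`).
Suppose that they are disjoint. By `geometric_hahn_banach_open` there are a linear functional `f`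
and `u` with `f y < u ≤ f c` for `y ∈ O`, `c ∈ C`. Let `f y = ∑ v_i y_i`. Then `v ≠ 0` (`f y < u ≤
f 0 = 0` for `y ∈ O`, and `O` is not empty). Letting `y ∈ O` tend to `0` we get `0 ≤ u`. Hence
`∑ v_i c_i ≥ 0` for all `c ∈ C`. But by hypothesis (for `v`) there is `m ∈ T` with
`∑ m_i v_i < 0`; contradiction.
-/

set_option autoImplicit false

namespace Pool.Agent.Helper12.KQ

theorem exists_conv {d k : ℕ} (M : Set (Fin d → ℤ)) (h0 : (0 : Fin d → ℤ) ∈ M)
    (h : ∀ v : Fin d → ℝ, v ≠ 0 → ∃ m ∈ M, ∑ i, (m i : ℝ) * v i < 0 ∧ ∀ i, -(k : ℤ) ≤ m i) :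
    ∃ (S : Finset (Fin d → ℤ)) (lam : (Fin d → ℤ) → ℝ),
      (∀ m ∈ S, m ∈ M ∧ ∀ i, -(k : ℤ) ≤ m i) ∧ (∀ m ∈ S, 0 ≤ lam m) ∧ ∑ m ∈ S, lam m = 1 ∧
      ∀ i, ∑ m ∈ S, lam m * (m i : ℝ) < 0 := by
  classical
  set e : (Fin d → ℤ) → (Fin d → ℝ) := fun m i => (m i : ℝ) with he
  have hinj : Function.Injective e := by
    intro m m' hmm
    funext i
    have := congrFun hmm i
    simp only [he] at this
    exact_mod_cast this
  set T : Set (Fin d → ℤ) := {m | m ∈ M ∧ ∀ i, -(k : ℤ) ≤ m i} with hT
  have h0T : (0 : Fin d → ℤ) ∈ T := ⟨h0, fun i => by simp⟩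
  have he0 : e 0 = 0 := by
    funext i
    simp [he]
  set C : Set (Fin d → ℝ) := convexHull ℝ (e '' T) with hC
  set O : Set (Fin d → ℝ) := {y | ∀ i, y i < 0} with hO
  have hOo : IsOpen O := by
    have : O = ⋂ i, {y : Fin d → ℝ | y i < 0} := by
      ext y
      simp [hO]
    rw [this]
    exact isOpen_iInter_of_finite fun i => isOpen_lt (continuous_apply i) continuous_const
  have hOc : Convex ℝ O := by
    intro x hx y hy a b ha hb hab i
    have h1 : x i < 0 := hx i
    have h2 : y i < 0 := hy i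
    simp only [Pi.add_apply, Pi.smul_apply, smul_eq_mul]
    rcases ha.lt_or_eq with ha' | ha'
    · nlinarith
    · have hb1 : b = 1 := by linarith
      rw [← ha', hb1]
      linarith
  have hmeet : (O ∩ C).Nonempty := by
    by_contra hne
    rw [Set.not_nonempty_iff_eq_empty, ← Set.disjoint_iff_inter_eq_empty] at hne
    obtain ⟨f, u, hf, hu⟩ := geometric_hahn_banach_open hOc hOo (convex_convexHull ℝ _) hne
    have hu0 : u ≤ 0 := by
      have := hu (e 0) (subset_convexHull ℝ _ (Set.mem_image_of_mem e h0T))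
      rwa [he0, map_zero] at this
    set y0 : Fin d → ℝ := fun _ => -1 with hy0
    have hy0O : y0 ∈ O := fun i => by simp [hy0]
    have hfy0 : f y0 < u := hf y0 hy0O
    have hfneg : f y0 < 0 := by linarith
    have hu1 : 0 ≤ u := by
      by_contra hc
      push Not at hc
      have ht : 0 < u / (2 * f y0) := div_pos_of_neg_of_neg hc (by linarith)
      have h1 : (u / (2 * f y0)) • y0 ∈ O := fun i => by
        simp only [Pi.smul_apply, smul_eq_mul, hy0]
        linarith
      have h2 := hf _ h1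
      rw [map_smul, smul_eq_mul] at h2
      have h3 : u / (2 * f y0) * f y0 = u / 2 := by
        have h4 : f y0 ≠ 0 := hfneg.ne
        generalize f y0 = z at h4
        field_simp
      rw [h3] at h2
      linarith
    set v : Fin d → ℝ := fun i => f (Pi.single i 1) with hv
    have hfv : ∀ y : Fin d → ℝ, f y = ∑ i, y i * v i := by
      intro y
      have h1 : y = ∑ i, y i • (Pi.single i (1 : ℝ) : Fin d → ℝ) := by
        funext j
        simp [Finset.sum_apply, Pi.single_apply]
      conv_lhs => rw [h1]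
      rw [map_sum]
      refine Finset.sum_congr rfl fun i _ => ?_
      rw [map_smul, smul_eq_mul]
    have hv0 : v ≠ 0 := by
      intro hv0
      rw [hfv y0, hv0] at hfneg
      simp at hfneg
    obtain ⟨m, hm, hm1, hm2⟩ := h v hv0
    have h3 := hu (e m) (subset_convexHull ℝ _ (Set.mem_image_of_mem e ⟨hm, hm2⟩))
    rw [hfv] at h3
    simp only [he] at h3
    linarith
  obtain ⟨y, hyO, hyC⟩ := hmeet
  rw [hC, convexHull_eq_union_convexHull_finite_subsets] at hyC
  simp only [Set.mem_iUnion] at hyC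
  obtain ⟨t, ht, hyt⟩ := hyC
  rw [Finset.mem_convexHull'] at hyt
  obtain ⟨w, hw0, hw1, hwy⟩ := hyt
  have hrange : ∀ z ∈ t, z ∈ Set.range e := fun z hz => by
    obtain ⟨m, _, hm⟩ := ht hz
    exact ⟨m, hm⟩
  refine ⟨t.preimage e hinj.injOn, fun m => w (e m), ?_, ?_, ?_, ?_⟩
  · intro m hm
    rw [Finset.mem_preimage] at hm
    obtain ⟨m', hm', hmm⟩ := ht hm
    rw [← hinj hmm]
    exact hm'
  · intro m hm
    rw [Finset.mem_preimage] at hm
    exact hw0 _ hm
  · rw [Finset.sum_preimage e t hinj.injOn w fun z hz hz' => absurd (hrange z hz) hz']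
    exact hw1
  · intro i
    have h1 : ∑ m ∈ t.preimage e hinj.injOn, w (e m) * (m i : ℝ) = ∑ z ∈ t, w z * z i := by
      rw [← Finset.sum_preimage e t hinj.injOn (fun z => w z * z i) fun z hz hz' => absurd (hrange z hz) hz']
    rw [h1]
    have h2 := congrFun hwy i
    rw [Finset.sum_apply] at h2
    simp only [Pi.smul_apply, smul_eq_mul] at h2
    rw [h2]
    exact hyO i

end Pool.Agent.Helper12.KQ
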