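import Pool.Agent.Helper12.KQ.Dual
import Pool.Agent.Helper79.KLT.Pos

/-!
# Block KQ-T2: the transference theorem for finite diagonal groups

`theta_exp`: `exp (2 π i a)` depends only on `fract a ∈ [0, 1)`; its argument is `2 π fract a` if
`fract a ≤ 1/2` and `2 π fract a - 2 π` otherwise (`Complex.arg_exp_mul_I`, `toIocMod`).

`exists_neg`. Let `M = {m ∈ ℤ^d | a^m = 1 for all a ∈ A}`, a submodule of `ℤ^d` (`x^m = ∏ x_i^(m_i)`).
With `N = |A|` we have `N ℤ^d ⊆ M ⊆ ℤ^d`, so `M` is free of rank `d`
(`LinearMap.finrank_le_finrank_of_injective` twice). Apply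
`Pool.Agent.Helper79.KLT.pos_span d M _ (Fin d) V ε` with `V i m = m_i` and `v0 m = ∑ m_i v_i`
(`v0 ≠ 0`: if `v_i ≠ 0` take `m = N e_i`). Its hypothesis: let `w : M →+ ℤ`, `w ≠ 0`, `a_i ≥ 0` with
`w m = ∑ a_i m_i` for all `m ∈ M`. Let `t_i = exp (2 π i a_i)`. For `m ∈ M` we have
`t^m = exp (2 π i w(m)) = 1`, so `t ∈ A` by `mem_of_chars`. If `t ≠ 1` then
`ε ≤ ∑ theta (t_i) = ∑ fract a_i ≤ ∑ a_i`. If `t = 1` then all `a_i` are integers, `≥ 0`, and not all
of them are `0` (as `w ≠ 0`), so `∑ a_i ≥ 1 ≥ ε`.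
-/

set_option autoImplicit false

namespace Pool.Agent.Helper12.KQ

private theorem exp_fract_h12 (a : ℝ) :
    Complex.exp (2 * Real.pi * a * Complex.I) =
      Complex.exp (((2 * Real.pi * Int.fract a : ℝ) : ℂ) * Complex.I) := by
  have h1 : (2 * Real.pi * a * Complex.I : ℂ) =
      ((2 * Real.pi * Int.fract a : ℝ) : ℂ) * Complex.I + (⌊a⌋ : ℂ) * (2 * Real.pi * Complex.I) := by
    have h2 : (a : ℂ) = ((Int.fract a : ℝ) : ℂ) + (⌊a⌋ : ℂ) := by
      have := Int.fract_add_floor a
      exact_mod_cast this.symm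
    rw [h2]
    push_cast
    ring
  rw [h1, Complex.exp_add, Complex.exp_int_mul_two_pi_mul_I, mul_one]

theorem theta_exp (a : ℝ) :
    theta (Complex.exp (2 * Real.pi * a * Complex.I)) = Int.fract a := by
  have hpi := Real.pi_pos
  have hf0 := Int.fract_nonneg a
  have hf1 := Int.fract_lt_one a
  rw [exp_fract_h12]
  set f := Int.fract a with hf
  rcases le_or_gt f (1 / 2) with h | h
  · have h1 : (Complex.exp (((2 * Real.pi * f : ℝ) : ℂ) * Complex.I)).arg = 2 * Real.pi * f := by
      rw [Complex.exp_mul_I, ← Complex.ofReal_cos, ← Complex.ofReal_sin, Complex.ofReal_cos,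
        Complex.ofReal_sin]
      apply Complex.arg_cos_add_sin_mul_I
      constructor <;> nlinarith
    rw [theta, h1, if_pos (by positivity)]
    field_simp
  · have h1 : (Complex.exp (((2 * Real.pi * f : ℝ) : ℂ) * Complex.I)).arg =
        2 * Real.pi * f - 2 * Real.pi := by
      have h2 : Complex.exp (((2 * Real.pi * f : ℝ) : ℂ) * Complex.I) =
          Complex.exp (((2 * Real.pi * f - 2 * Real.pi : ℝ) : ℂ) * Complex.I) := by
        have h3 : ((2 * Real.pi * f : ℝ) : ℂ) * Complex.I =
            ((2 * Real.pi * f - 2 * Real.pi : ℝ) : ℂ) * Complex.I + 2 * Real.pi * Complex.I := by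
          push_cast
          ring
        rw [h3, Complex.exp_add, Complex.exp_two_pi_mul_I, mul_one]
      rw [h2, Complex.exp_mul_I]
      apply Complex.arg_cos_add_sin_mul_I
      constructor <;> nlinarith
    rw [theta, h1, if_neg (by nlinarith)]
    field_simp
    ring

/-- The lattice of the characters that are trivial on `A`. -/
private def lat_h12 {d : ℕ} (A : Subgroup (Fin d → ℂˣ)) : AddSubgroup (Fin d → ℤ) where
  carrier := {m | ∀ a ∈ A, ∏ i, a i ^ m i = 1}
  zero_mem' := by
    intro a _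
    simp
  add_mem' := by
    intro m n hm hn a ha
    simp only [Pi.add_apply, zpow_add, Finset.prod_mul_distrib]
    rw [hm a ha, hn a ha, mul_one]
  neg_mem' := by
    intro m hm a ha
    simp only [Pi.neg_apply, zpow_neg, Finset.prod_inv_distrib]
    rw [hm a ha, inv_one]

private theorem card_smul_mem_h12 {d : ℕ} (A : Subgroup (Fin d → ℂˣ)) (x : Fin d → ℤ) :
    (Nat.card A : ℤ) • x ∈ lat_h12 A := by
  intro a ha
  have h1 : a ^ Nat.card A = 1 := by
    have h2 : (⟨a, ha⟩ : A) ^ Nat.card A = 1 := pow_card_eq_one'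
    have h3 : (((⟨a, ha⟩ : A) ^ Nat.card A : A) : Fin d → ℂˣ) = 1 := by
      rw [h2]
      rfl
    rwa [Subgroup.coe_pow] at h3
  have h2 : ∀ i, a i ^ Nat.card A = 1 := fun i => congrFun h1 i
  have h3 : ∀ i ∈ (Finset.univ : Finset (Fin d)), a i ^ (((Nat.card A : ℤ) • x) i) = 1 := by
    intro i _
    rw [Pi.smul_apply, smul_eq_mul, zpow_mul, zpow_natCast, h2 i, one_zpow]
  exact Finset.prod_eq_one h3

private theorem finrank_lat_h12 {d : ℕ} (A : Subgroup (Fin d → ℂˣ)) (hA : Finite A) :
    Module.finrank ℤ (lat_h12 A) = d := by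
  have hN : (Nat.card A : ℤ) ≠ 0 := by
    have : 0 < Nat.card A := Nat.card_pos
    exact_mod_cast this.ne'
  let inc : lat_h12 A →ₗ[ℤ] (Fin d → ℤ) := (lat_h12 A).subtype.toIntLinearMap
  have hinc : Function.Injective inc := fun x y h => Subtype.ext h
  have : Module.Finite ℤ (lat_h12 A) := Module.Finite.of_injective inc hinc
  have hfr : Module.finrank ℤ (Fin d → ℤ) = d := by simp
  apply le_antisymm
  · have h1 := LinearMap.finrank_le_finrank_of_injective hinc
    rwa [hfr] at h1
  · let g : (Fin d → ℤ) →+ lat_h12 A :=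
      { toFun := fun x => ⟨(Nat.card A : ℤ) • x, card_smul_mem_h12 A x⟩
        map_zero' := by
          apply Subtype.ext
          simp
        map_add' := by
          intro x y
          apply Subtype.ext
          simp [smul_add] }
    have hg : Function.Injective g.toIntLinearMap := by
      intro x y h
      have h1 : (Nat.card A : ℤ) • x = (Nat.card A : ℤ) • y := congrArg Subtype.val h
      funext i
      have h2 := congrFun h1 i
      simp only [Pi.smul_apply, smul_eq_mul] at h2
      exact mul_left_cancel₀ hN h2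
    have h1 := LinearMap.finrank_le_finrank_of_injective hg
    rwa [hfr] at h1

theorem exists_neg {d : ℕ} (A : Subgroup (Fin d → ℂˣ)) (hA : Finite A) {ε : ℝ} (hε : 0 < ε)
    (hε1 : ε ≤ 1) (hage : ∀ a ∈ A, a ≠ 1 → ε ≤ ∑ i, theta (a i)) (v : Fin d → ℝ) (hv : v ≠ 0) :
    ∃ m : Fin d → ℤ, (∀ a ∈ A, ∏ i, a i ^ m i = 1) ∧ ∑ i, (m i : ℝ) * v i < 0 ∧
      ∀ i, -(d * 2 ^ (d + 4) / ε) ≤ (m i : ℝ) := by
  have hN : (Nat.card A : ℤ) ≠ 0 := by
    have : 0 < Nat.card A := Nat.card_pos
    exact_mod_cast this.ne'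
  let inc : lat_h12 A →ₗ[ℤ] (Fin d → ℤ) := (lat_h12 A).subtype.toIntLinearMap
  have hinc : Function.Injective inc := fun x y h => Subtype.ext h
  have : Module.Finite ℤ (lat_h12 A) := Module.Finite.of_injective inc hinc
  have : Module.IsTorsionFree ℤ (lat_h12 A) := inferInstance
  have : Module.Free ℤ (lat_h12 A) := inferInstance
  let V : Fin d → lat_h12 A →+ ℝ := fun i =>
    { toFun := fun m => ((m : Fin d → ℤ) i : ℝ)
      map_zero' := by simp
      map_add' := by
        intro x y
        simp }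
  let v0 : lat_h12 A →+ ℝ :=
    { toFun := fun m => ∑ i, ((m : Fin d → ℤ) i : ℝ) * v i
      map_zero' := by simp
      map_add' := by
        intro x y
        simp [add_mul, Finset.sum_add_distrib] }
  have hv0 : v0 ≠ 0 := by
    intro h
    apply hv
    funext i
    have h1 := DFunLike.congr_fun h
      ⟨(Nat.card A : ℤ) • (Pi.single i 1 : Fin d → ℤ), card_smul_mem_h12 A _⟩
    have h2 : ∑ j, (((((Nat.card A : ℤ) • (Pi.single i 1 : Fin d → ℤ)) j : ℤ) : ℝ) * v j) = 0 := h1
    rw [Finset.sum_eq_single i] at h2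
    · have h3 : ((Nat.card A : ℤ) : ℝ) ≠ 0 := by exact_mod_cast hN
      simp only [Pi.smul_apply, Pi.single_eq_same, smul_eq_mul, mul_one] at h2
      exact (mul_eq_zero.1 h2).resolve_left h3
    · intro j _ hj
      simp [Pi.single_eq_of_ne hj]
    · simp
  obtain ⟨m, hm1, hm2⟩ := Pool.Agent.Helper79.KLT.pos_span d (lat_h12 A) (finrank_lat_h12 A hA)
    (Fin d) V ε hε (by
      intro w hw a ha hwa
      let t : Fin d → ℂˣ := fun i =>
        Units.mk0 (Complex.exp (2 * Real.pi * a i * Complex.I)) (Complex.exp_ne_zero _)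
      have ht : t ∈ A := by
        apply mem_of_chars A hA
        intro m hm
        apply Units.ext
        rw [Units.val_one, Units.coe_prod]
        have h1 : ∀ i ∈ (Finset.univ : Finset (Fin d)), ((t i ^ m i : ℂˣ) : ℂ) =
            Complex.exp ((m i : ℂ) * (2 * Real.pi * a i * Complex.I)) := by
          intro i _
          rw [Units.val_zpow_eq_zpow_val, Complex.exp_int_mul]
          rfl
        rw [Finset.prod_congr rfl h1, ← Complex.exp_sum]
        have h2 := hwa ⟨m, hm⟩
        have h3 : ∑ i, (m i : ℂ) * (2 * Real.pi * a i * Complex.I) =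
            (w ⟨m, hm⟩ : ℂ) * (2 * Real.pi * Complex.I) := by
          have h4 : ((w ⟨m, hm⟩ : ℤ) : ℂ) = ∑ i, (a i : ℂ) * (m i : ℂ) := by
            have h5 : ((w ⟨m, hm⟩ : ℤ) : ℝ) = ∑ i, a i * (m i : ℝ) := h2
            exact_mod_cast congrArg (fun r : ℝ => (r : ℂ)) h5
          rw [h4, Finset.sum_mul]
          refine Finset.sum_congr rfl fun i _ => ?_
          ring
        rw [h3, Complex.exp_int_mul_two_pi_mul_I]
      have hth : ∀ i, theta (t i) = Int.fract (a i) := fun i => theta_exp (a i)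
      by_cases h1 : t = 1
      · have h2 : ∀ i, Int.fract (a i) = 0 := by
          intro i
          rw [← hth i, h1]
          simp [theta]
        have h3 : ∃ i, a i ≠ 0 := by
          by_contra h
          push Not at h
          apply hw
          ext m
          have h4 := hwa m
          simp only [h, zero_mul, Finset.sum_const_zero] at h4
          have h5 : w m = 0 := by exact_mod_cast h4
          simpa using h5
        obtain ⟨i, hi⟩ := h3
        have h4 : (⌊a i⌋ : ℝ) = a i := by
          have := Int.fract_add_floor (a i)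
          rw [h2 i, zero_add] at this
          exact this
        have h5 : 0 < a i := lt_of_le_of_ne (ha i) (Ne.symm hi)
        have h6 : 1 ≤ a i := by
          rw [← h4] at h5 ⊢
          have : 0 < ⌊a i⌋ := by exact_mod_cast h5
          exact_mod_cast this
        exact hε1.trans (h6.trans (Finset.single_le_sum (fun j _ => ha j) (Finset.mem_univ i)))
      · have h2 := hage t ht h1
        refine h2.trans (Finset.sum_le_sum fun i _ => ?_)
        rw [hth i]
        have h3 := Int.fract_add_floor (a i)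
        have h4 : (0 : ℝ) ≤ (⌊a i⌋ : ℝ) := by
          have : 0 ≤ ⌊a i⌋ := Int.floor_nonneg.2 (ha i)
          exact_mod_cast this
        linarith) v0 hv0
  exact ⟨m, m.2, hm1, hm2⟩

end Pool.Agent.Helper12.KQ
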