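import Pool.Agent.Helper12.KQ.Jordan
import Pool.Agent.Helper12.KQ.Toric
import Pool.Agent.Helper12.KQ.Sep
import Pool.Agent.Helper12.KQ.Comb
import Pool.Agent.Helper12.KQ.Base
import Pool.Agent.Helper12.KQ.Norm

/-!
# Project KQ: assembly
-/

set_option autoImplicit false

namespace Pool.Agent.Helper12.KQ

open MeasureTheory

/-- The case of finite diagonal groups. -/
theorem torus {d : ℕ} (A : Subgroup (Fin d → ℂˣ)) (hA : Finite A) {ε : ℝ} (hε : 0 < ε)
    (hε1 : ε ≤ 1) (hage : ∀ a ∈ A, a ≠ 1 → ε ≤ ∑ i, theta (a i)) {k : ℕ} (hk2 : 2 ≤ k)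
    (hk : d * 2 ^ (d + 4) / ε ≤ k) :
    ∃ h : MvPolynomial (Fin d) ℂ, (∀ a ∈ A, ∀ x : Fin d → ℂ,
      MvPolynomial.eval (fun i => (a i : ℂ) * x i) h =
        (∏ i, (a i : ℂ)) ^ k * MvPolynomial.eval x h) ∧ KltAtZero k h := by
  classical
  obtain ⟨S, lam, hS, hl0, hl1, hl2⟩ := exists_conv (k := k)
    {m : Fin d → ℤ | ∀ a ∈ A, ∏ i, a i ^ m i = 1} (by intro a _; simp) (by
      intro v hv
      obtain ⟨m, hm1, hm2, hm3⟩ := exists_neg A hA hε hε1 hage v hv
      refine ⟨m, hm1, hm2, fun i => ?_⟩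
      have h1 : (-(k : ℝ)) ≤ (m i : ℝ) := (neg_le_neg hk).trans (hm3 i)
      exact_mod_cast h1)
  let φ : (Fin d → ℤ) → (Fin d → ℕ) := fun m i => (m i + k).toNat
  let ψ : (Fin d → ℕ) → (Fin d → ℤ) := fun n i => (n i : ℤ) - k
  have hφ : ∀ m ∈ S, ∀ i, ((φ m i : ℕ) : ℤ) = m i + k := by
    intro m hm i
    have h1 := (hS m hm).2 i
    exact Int.toNat_of_nonneg (by omega)
  have hψφ : ∀ m ∈ S, ψ (φ m) = m := by
    intro m hm
    funext i
    show ((φ m i : ℕ) : ℤ) - k = m i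
    rw [hφ m hm i]
    ring
  have hinj : Set.InjOn φ S := by
    intro m hm m' hm' he
    rw [← hψφ m hm, ← hψφ m' hm', he]
  have hk0 : 0 < k := by omega
  have hbase := base_int hk0 (S.image φ) (fun n => lam (ψ n))
    (by
      intro n hn
      obtain ⟨m, hm, rfl⟩ := Finset.mem_image.1 hn
      show 0 ≤ lam (ψ (φ m))
      rw [hψφ m hm]
      exact hl0 m hm)
    (by
      rw [Finset.sum_image hinj, ← hl1]
      exact Finset.sum_congr rfl fun m hm => by rw [hψφ m hm])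
    (by
      intro i
      rw [Finset.sum_image hinj]
      have h1 : ∀ m ∈ S, lam (ψ (φ m)) * ((φ m i : ℕ) : ℝ) = lam m * (m i : ℝ) + lam m * k := by
        intro m hm
        have h2 : ((φ m i : ℕ) : ℝ) = (m i : ℝ) + k := by exact_mod_cast hφ m hm i
        rw [hψφ m hm, h2]
        ring
      rw [Finset.sum_congr rfl h1, Finset.sum_add_distrib, ← Finset.sum_mul, hl1]
      linarith [hl2 i])
  have hkR : (0 : ℝ) < k := by exact_mod_cast hk0
  have hs : (0 : ℝ) < 2 / k := by positivity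
  have hs2 : (2 : ℝ) / k < 2 := by
    rw [div_lt_iff₀ hkR]
    have : (2 : ℝ) ≤ k := by exact_mod_cast hk2
    linarith
  obtain ⟨c, hc⟩ := exists_comb (volume.restrict (Set.univ.pi fun _ : Fin d =>
    Metric.ball (0 : ℂ) 1)) hs hs2 (S.image φ) (fun m (x : Fin d → ℂ) => ∏ i, x i ^ m i)
    (fun m => by fun_prop) hbase
  have heval : ∀ x : Fin d → ℂ, MvPolynomial.eval x (∑ m ∈ S.image φ, MvPolynomial.C (c m) *
      ∏ i, MvPolynomial.X i ^ m i) = ∑ m ∈ S.image φ, c m * ∏ i, x i ^ m i := by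
    intro x
    simp
  refine ⟨∑ m ∈ S.image φ, MvPolynomial.C (c m) * ∏ i, MvPolynomial.X i ^ m i, ?_, ?_⟩
  · intro a ha x
    rw [heval, heval, Finset.mul_sum]
    refine Finset.sum_congr rfl fun n hn => ?_
    obtain ⟨m, hm, rfl⟩ := Finset.mem_image.1 hn
    have h1 : ∏ i, a i ^ φ m i = (∏ i, a i) ^ k := by
      have h2 : ∀ i ∈ (Finset.univ : Finset (Fin d)), a i ^ φ m i = a i ^ m i * a i ^ k := by
        intro i _
        rw [← zpow_natCast (a i) (φ m i), hφ m hm i, zpow_add, zpow_natCast]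
      rw [Finset.prod_congr rfl h2, Finset.prod_mul_distrib, (hS m hm).1 a ha, one_mul,
        Finset.prod_pow]
    have h3 : ∏ i, (a i : ℂ) ^ φ m i = (∏ i, (a i : ℂ)) ^ k := by
      have h4 := congrArg (fun u : ℂˣ => (u : ℂ)) h1
      simpa using h4
    simp only [mul_pow, Finset.prod_mul_distrib, h3]
    ring
  · refine ⟨Set.univ.pi fun _ : Fin d => Metric.ball (0 : ℂ) 1, ?_, ?_⟩
    · exact set_pi_mem_nhds Set.finite_univ fun i _ => Metric.ball_mem_nhds _ one_pos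
    · simp only [heval]
      exact hc

theorem age_conj_dg {d : ℕ} {P a : GL (Fin d) ℂ} {c : Fin d → ℂˣ} (h : P * a * P⁻¹ = dg d c) :
    age (a : Matrix (Fin d) (Fin d) ℂ) = ∑ i, theta (c i) := by
  have h1 : (a : Matrix (Fin d) (Fin d) ℂ).charpoly =
      (Matrix.diagonal fun i => (c i : ℂ)).charpoly := by
    rw [← dg_coe, ← h, Units.val_mul, Units.val_mul]
    have h2 := (Matrix.charpoly_units_conj P (a : Matrix (Fin d) (Fin d) ℂ)).symm
    rw [← Matrix.coe_units_inv] at h2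
    exact h2
  rw [age, h1, Matrix.charpoly_diagonal]
  rw [Polynomial.roots_prod _ _ (Finset.prod_ne_zero_iff.2 fun i _ => Polynomial.X_sub_C_ne_zero _)]
  simp only [Polynomial.roots_X_sub_C]
  simp [Multiset.bind_singleton]
  rw [List.sum_ofFn]
  rfl

theorem main (d : ℕ) : ∃ C : ℕ, 0 < C ∧ ∀ ε : ℝ, 0 < ε → ε ≤ 1 → ∀ k : ℕ, 2 ≤ k →
    d * 2 ^ (d + 4) / ε ≤ k → ∀ G : Subgroup (GL (Fin d) ℂ), Finite G →
    (∀ g ∈ G, g ≠ 1 → ε ≤ age (g : Matrix (Fin d) (Fin d) ℂ)) →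
    ∃ h : MvPolynomial (Fin d) ℂ, SemiInvariant G (k * C) h ∧ KltAtZero (k * C) h := by
  obtain ⟨J, hJ⟩ := jordan d
  refine ⟨J.factorial, Nat.factorial_pos J, ?_⟩
  intro ε hε hε1 k hk2 hk G hG hage
  obtain ⟨A, hAG, hAc, hAJ⟩ := hJ G hG
  have hAfin : Finite A := Finite.of_injective (Subgroup.inclusion hAG)
    (Subgroup.inclusion_injective hAG)
  obtain ⟨P, hP⟩ := exists_diag A hAfin hAc
  let F : (Fin d → ℂˣ) →* GL (Fin d) ℂ := (MulAut.conj P⁻¹).toMonoidHom.comp (dg d)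
  have hF : ∀ c, F c = P⁻¹ * dg d c * P := by
    intro c
    simp [F, MulAut.conj_apply]
  have hFP : ∀ c, P * F c * P⁻¹ = dg d c := by
    intro c
    rw [hF]
    group
  have hFinj : Function.Injective F := by
    intro c c' hcc
    have h1 : dg d c = dg d c' := by rw [← hFP, ← hFP, hcc]
    funext i
    have h2 := congrArg (fun g : GL (Fin d) ℂ => (g : Matrix (Fin d) (Fin d) ℂ) i i) h1
    simp only [dg_coe, Matrix.diagonal_apply_eq] at h2
    exact Units.ext h2
  have hTfin : Finite (A.comap F) := by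
    have : Function.Injective (fun c : A.comap F => (⟨F c.1, c.2⟩ : A)) := by
      intro c c' hcc
      exact Subtype.ext (hFinj (Subtype.ext_iff.1 hcc))
    exact Finite.of_injective _ this
  obtain ⟨h0, hh0, hklt0⟩ := torus (A.comap F) hTfin hε hε1 (by
    intro c hc hc1
    have h1 : F c ≠ 1 := by
      intro h
      apply hc1
      apply hFinj
      rw [h, map_one]
    have h2 := hage (F c) (hAG hc) h1
    rw [age_conj_dg (hFP c)] at h2
    exact h2) hk2 hk
  have hs1 : SemiInvariant A k (lin (P : Matrix (Fin d) (Fin d) ℂ) h0) := by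
    intro a ha x
    obtain ⟨c, hc⟩ := hP a ha
    have hFc : F c = a := by
      rw [hF, ← hc]
      group
    have hcT : c ∈ A.comap F := by
      show F c ∈ A
      rw [hFc]
      exact ha
    have h1 : (P : Matrix (Fin d) (Fin d) ℂ) * (a : Matrix (Fin d) (Fin d) ℂ) =
        Matrix.diagonal (fun i => (c i : ℂ)) * (P : Matrix (Fin d) (Fin d) ℂ) := by
      have h2 : P * a = dg d c * P := by
        rw [← hc]
        group
      have h3 := congrArg (fun g : GL (Fin d) ℂ => (g : Matrix (Fin d) (Fin d) ℂ)) h2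
      simpa [dg_coe] using h3
    have h4 : (a : Matrix (Fin d) (Fin d) ℂ).det = ∏ i, (c i : ℂ) := by
      have h5 := congrArg Matrix.det h1
      rw [Matrix.det_mul, Matrix.det_mul, Matrix.det_diagonal, mul_comm] at h5
      have h6 : (P : Matrix (Fin d) (Fin d) ℂ).det ≠ 0 :=
        ((Matrix.isUnit_iff_isUnit_det _).1 P.isUnit).ne_zero
      exact mul_right_cancel₀ h6 h5
    rw [eval_lin, eval_lin, Matrix.mulVec_mulVec, h1, ← Matrix.mulVec_mulVec, h4]
    have h7 := hh0 c hcT ((P : Matrix (Fin d) (Fin d) ℂ).mulVec x)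
    rw [← h7]
    congr 2
    funext i
    rw [Matrix.mulVec_diagonal]
  have hk0 : 0 < k := by omega
  obtain ⟨h2, hs2, hklt2⟩ := norm_step hk0 G A hG hAG hs1 (klt_lin P hklt0)
  have hj0 : A.relIndex G ≠ 0 := by
    have : (A.subgroupOf G).index ≠ 0 := Subgroup.index_ne_zero_of_finite
    exact this
  obtain ⟨q, hq⟩ := Nat.dvd_factorial (Nat.pos_of_ne_zero hj0) hAJ
  have hq0 : 0 < q := by
    rcases Nat.eq_zero_or_pos q with h | h
    · rw [h, mul_zero] at hq
      exact absurd hq (Nat.factorial_pos J).ne'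
    · exact h
  refine ⟨h2 ^ q, ?_, ?_⟩
  · intro g hg x
    rw [map_pow, map_pow, hs2 g hg x, mul_pow, ← pow_mul, hq, mul_assoc]
  · rw [hq, ← mul_assoc]
    exact klt_pow (Nat.mul_pos hk0 (Nat.pos_of_ne_zero hj0)) hq0 hklt2

end Pool.Agent.Helper12.KQ
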