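import Pool.Agent.Helper12.KQ.Frob

/-!
# Block KQ-J1: elements near the identity commute

Let `G` be a finite group of unitary matrices and `g, h ∈ G` with `‖g - 1‖ < 1/2`, `‖h - 1‖ < 1/2`.
Then `g h = h g`.

Proof. For unitary `g, h`: `g h g⁻¹ h⁻¹ - 1 = ((g - 1) (h - 1) - (h - 1) (g - 1)) g⁻¹ h⁻¹`, so
`‖g h g⁻¹ h⁻¹ - 1‖ ≤ 2 ‖g - 1‖ ‖h - 1‖` (multiplication by unitary matrices does not increase the
norm: the matrices form a C*-ring for this norm, `CStarRing.norm_of_mem_unitary`,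
`CStarRing.norm_coe_unitary_mul`, ...). Define `h_0 = h`, `h_(n+1) = g h_n g⁻¹ h_n⁻¹ ∈ G`. Then
`‖h_n - 1‖ ≤ (2 ‖g - 1‖)^n ‖h - 1‖ → 0`, and all these numbers are `< 1/2 < √2`. `G` is finite, so
there is `δ > 0` with `‖x - 1‖ ≥ δ` for all `x ≠ 1` in `G`; hence `h_n = 1` for some `n`. Now `g`
commutes with `h_n = 1`. If `g` commutes with `h_(n+1) = g h_n g⁻¹ h_n⁻¹`, then `g` commutes with
`g⁻¹ h_(n+1) = h_n g⁻¹ h_n⁻¹` and with its inverse `h_n g h_n⁻¹`, so `g` commutes with `h_n` by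
`frob`. By downward induction `g` commutes with `h_0 = h`.
-/

set_option autoImplicit false

open scoped Matrix.Norms.L2Operator

namespace Pool.Agent.Helper12.KQ

private noncomputable def sq77 {d : ℕ} (g h : GL (Fin d) ℂ) : ℕ → GL (Fin d) ℂ
  | 0 => h
  | n + 1 => g * sq77 g h n * g⁻¹ * (sq77 g h n)⁻¹

private theorem sq_mem77 {d : ℕ} (G : Subgroup (GL (Fin d) ℂ)) {g h : GL (Fin d) ℂ} (hg : g ∈ G) (hh : h ∈ G) :
    ∀ n, sq77 g h n ∈ G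
  | 0 => hh
  | n + 1 => G.mul_mem (G.mul_mem (G.mul_mem hg (sq_mem77 G hg hh n)) (G.inv_mem hg)) (G.inv_mem (sq_mem77 G hg hh n))

private theorem comm_norm77 {d : ℕ} (G : Subgroup (GL (Fin d) ℂ))
    (hU : ∀ g ∈ G, (g : Matrix (Fin d) (Fin d) ℂ) ∈ Matrix.unitaryGroup (Fin d) ℂ)
    {g x : GL (Fin d) ℂ} (hg : g ∈ G) (hx : x ∈ G) :
    ‖((g * x * g⁻¹ * x⁻¹ : GL (Fin d) ℂ) : Matrix (Fin d) (Fin d) ℂ) - 1‖ ≤
      2 * ‖(g : Matrix (Fin d) (Fin d) ℂ) - 1‖ * ‖(x : Matrix (Fin d) (Fin d) ℂ) - 1‖ := by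
  have hg' := hU _ (G.inv_mem hg)
  have hx' := hU _ (G.inv_mem hx)
  have e1 : (g : Matrix (Fin d) (Fin d) ℂ) * ((g⁻¹ : GL (Fin d) ℂ) : Matrix (Fin d) (Fin d) ℂ) = 1 := g.mul_inv
  have e2 : (x : Matrix (Fin d) (Fin d) ℂ) * ((x⁻¹ : GL (Fin d) ℂ) : Matrix (Fin d) (Fin d) ℂ) = 1 := x.mul_inv
  have e3 : ((g * x * g⁻¹ * x⁻¹ : GL (Fin d) ℂ) : Matrix (Fin d) (Fin d) ℂ) - 1 =
      (((g : Matrix (Fin d) (Fin d) ℂ) - 1) * ((x : Matrix (Fin d) (Fin d) ℂ) - 1) -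
        ((x : Matrix (Fin d) (Fin d) ℂ) - 1) * ((g : Matrix (Fin d) (Fin d) ℂ) - 1)) *
        ((g⁻¹ : GL (Fin d) ℂ) : Matrix (Fin d) (Fin d) ℂ) * ((x⁻¹ : GL (Fin d) ℂ) : Matrix (Fin d) (Fin d) ℂ) := by
    have e4 : ((g : Matrix (Fin d) (Fin d) ℂ) - 1) * ((x : Matrix (Fin d) (Fin d) ℂ) - 1) -
        ((x : Matrix (Fin d) (Fin d) ℂ) - 1) * ((g : Matrix (Fin d) (Fin d) ℂ) - 1) =
        (g : Matrix (Fin d) (Fin d) ℂ) * x - (x : Matrix (Fin d) (Fin d) ℂ) * g := by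
      noncomm_ring
    rw [e4, sub_mul, sub_mul]
    have e5 : (x : Matrix (Fin d) (Fin d) ℂ) * g * ((g⁻¹ : GL (Fin d) ℂ) : Matrix (Fin d) (Fin d) ℂ) *
        ((x⁻¹ : GL (Fin d) ℂ) : Matrix (Fin d) (Fin d) ℂ) = 1 := by
      rw [mul_assoc (x : Matrix (Fin d) (Fin d) ℂ), e1, mul_one, e2]
    rw [e5]
    rfl
  rw [e3, CStarRing.norm_mul_mem_unitary _ hx', CStarRing.norm_mul_mem_unitary _ hg']
  refine (norm_sub_le _ _).trans ?_
  have h1 := norm_mul_le ((g : Matrix (Fin d) (Fin d) ℂ) - 1) ((x : Matrix (Fin d) (Fin d) ℂ) - 1)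
  have h2 := norm_mul_le ((x : Matrix (Fin d) (Fin d) ℂ) - 1) ((g : Matrix (Fin d) (Fin d) ℂ) - 1)
  linarith

private theorem gap77 {d : ℕ} (S : Finset (GL (Fin d) ℂ)) : ∃ δ : ℝ, 0 < δ ∧
    ∀ x ∈ S, ‖(x : Matrix (Fin d) (Fin d) ℂ) - 1‖ < δ → x = 1 := by
  classical
  induction S using Finset.induction_on with
  | empty => exact ⟨1, one_pos, fun x hx => absurd hx (Finset.notMem_empty x)⟩
  | insert y S _ ih =>
    obtain ⟨δ, hδ, h⟩ := ih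
    by_cases hy : y = 1
    · refine ⟨δ, hδ, fun x hx hlt => ?_⟩
      rcases Finset.mem_insert.1 hx with h1 | h1
      · rw [h1, hy]
      · exact h x h1 hlt
    · have hpos : 0 < ‖(y : Matrix (Fin d) (Fin d) ℂ) - 1‖ := by
        rw [norm_pos_iff, sub_ne_zero]
        intro hh
        exact hy (Units.ext hh)
      refine ⟨min δ ‖(y : Matrix (Fin d) (Fin d) ℂ) - 1‖, lt_min hδ hpos, fun x hx hlt => ?_⟩
      rcases Finset.mem_insert.1 hx with h1 | h1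
      · exfalso
        rw [h1] at hlt
        exact absurd (hlt.trans_le (min_le_right _ _)) (lt_irrefl _)
      · exact h x h1 (hlt.trans_le (min_le_left _ _))

theorem near_comm {d : ℕ} (G : Subgroup (GL (Fin d) ℂ)) (hG : Finite G)
    (hU : ∀ g ∈ G, (g : Matrix (Fin d) (Fin d) ℂ) ∈ Matrix.unitaryGroup (Fin d) ℂ)
    {g h : GL (Fin d) ℂ} (hg : g ∈ G) (hh : h ∈ G)
    (h1 : ‖(g : Matrix (Fin d) (Fin d) ℂ) - 1‖ < 1 / 2)
    (h2 : ‖(h : Matrix (Fin d) (Fin d) ℂ) - 1‖ < 1 / 2) : g * h = h * g := by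
  have hq0 : 0 ≤ 2 * ‖(g : Matrix (Fin d) (Fin d) ℂ) - 1‖ := by positivity
  have hq1 : 2 * ‖(g : Matrix (Fin d) (Fin d) ℂ) - 1‖ < 1 := by linarith
  have hbound : ∀ n, ‖(sq77 g h n : Matrix (Fin d) (Fin d) ℂ) - 1‖ ≤
      (2 * ‖(g : Matrix (Fin d) (Fin d) ℂ) - 1‖) ^ n * ‖(h : Matrix (Fin d) (Fin d) ℂ) - 1‖ := by
    intro n
    induction n with
    | zero =>
      rw [pow_zero, one_mul]
      exact le_rfl
    | succ n ih =>
      have h3 := comm_norm77 G hU hg (sq_mem77 G hg hh n)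
      refine h3.trans ?_
      calc 2 * ‖(g : Matrix (Fin d) (Fin d) ℂ) - 1‖ * ‖(sq77 g h n : Matrix (Fin d) (Fin d) ℂ) - 1‖
          ≤ 2 * ‖(g : Matrix (Fin d) (Fin d) ℂ) - 1‖ *
            ((2 * ‖(g : Matrix (Fin d) (Fin d) ℂ) - 1‖) ^ n * ‖(h : Matrix (Fin d) (Fin d) ℂ) - 1‖) :=
            mul_le_mul_of_nonneg_left ih hq0
        _ = _ := by ring
  have hsmall : ∀ n, ‖(sq77 g h n : Matrix (Fin d) (Fin d) ℂ) - 1‖ < √2 := by
    intro n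
    have h3 : (2 * ‖(g : Matrix (Fin d) (Fin d) ℂ) - 1‖) ^ n ≤ 1 := pow_le_one₀ hq0 hq1.le
    have h4 : (2 * ‖(g : Matrix (Fin d) (Fin d) ℂ) - 1‖) ^ n * ‖(h : Matrix (Fin d) (Fin d) ℂ) - 1‖ ≤
        1 * ‖(h : Matrix (Fin d) (Fin d) ℂ) - 1‖ := mul_le_mul_of_nonneg_right h3 (norm_nonneg _)
    have h5 : (1 : ℝ) < √2 := by
      rw [Real.lt_sqrt (by norm_num)]
      norm_num
    have h6 := hbound n
    linarith
  obtain ⟨δ, hδ, hgap⟩ := gap77 (Set.Finite.toFinset (s := (G : Set (GL (Fin d) ℂ))) (Set.toFinite _))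
  have hex : ∃ n, sq77 g h n = 1 := by
    obtain ⟨n, hn⟩ := exists_pow_lt_of_lt_one hδ hq1
    refine ⟨n, hgap _ ((Set.Finite.mem_toFinset _).2 (sq_mem77 G hg hh n)) ?_⟩
    refine (hbound n).trans_lt (lt_of_le_of_lt ?_ hn)
    have h4 : 0 ≤ (2 * ‖(g : Matrix (Fin d) (Fin d) ℂ) - 1‖) ^ n := pow_nonneg hq0 n
    nlinarith
  have hfin : IsOfFinOrder g := by
    have h3 : IsOfFinOrder (⟨g, hg⟩ : G) := isOfFinOrder_of_finite _
    rw [isOfFinOrder_iff_pow_eq_one] at h3 ⊢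
    obtain ⟨n, hn, h4⟩ := h3
    exact ⟨n, hn, congrArg Subtype.val h4⟩
  have hdown : ∀ n, g * sq77 g h n = sq77 g h n * g → g * h = h * g := by
    intro n
    induction n with
    | zero => exact fun h3 => h3
    | succ n ih =>
      intro h3
      refine ih (frob (hU g hg) (hU _ (sq_mem77 G hg hh n)) hfin ?_ (hsmall n))
      have h4 : Commute g (g * sq77 g h n * g⁻¹ * (sq77 g h n)⁻¹) := h3
      have h5 : Commute g (sq77 g h n * g⁻¹ * (sq77 g h n)⁻¹) := by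
        have h6 : sq77 g h n * g⁻¹ * (sq77 g h n)⁻¹ = g⁻¹ * (g * sq77 g h n * g⁻¹ * (sq77 g h n)⁻¹) := by
          group
        rw [h6]
        exact ((Commute.refl g).inv_right).mul_right h4
      have h7 : Commute g (sq77 g h n * g * (sq77 g h n)⁻¹) := by
        have h8 : sq77 g h n * g * (sq77 g h n)⁻¹ = (sq77 g h n * g⁻¹ * (sq77 g h n)⁻¹)⁻¹ := by
          group
        rw [h8]
        exact h5.inv_right
      exact h7
  obtain ⟨n, hn⟩ := hex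
  refine hdown n ?_
  rw [hn, mul_one, one_mul]

end Pool.Agent.Helper12.KQ
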