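import Pool.Agent.Helper12.KQ.Defs

/-!
# Block KQ-P: linear changes of variables, products and powers

`klt_lin`: let `U` be the neighbourhood for `h`; for `lin g h` (the polynomial `h (g x)`, `eval_lin`)
take `V = {x | g x ∈ U}`, a neighbourhood of `0` (continuity of `x ↦ g x`). The linear map
`x ↦ g x` is invertible and multiplies Lebesgue measure by a constant
(`MeasureTheory.Measure.map_linearMap_addHaar_eq_smul_addHaar`; real determinant of the restriction
of scalars is nonzero because the map is bijective), so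
`∫_V |h (g x)|^(-2/n) dx = const * ∫_U |h (y)|^(-2/n) dy < ∞`.

`klt_prod`: let `j = R.card`, and let `U` be the intersection of the neighbourhoods (finite). By
Hölder (`ENNReal.lintegral_prod_norm_pow_le`, weights `1/j`)
`∫_U |∏ f_i|^(-2/(n j)) = ∫_U ∏ (|f_i|^(-2/n))^(1/j) ≤ ∏ (∫_U |f_i|^(-2/n))^(1/j) < ∞`
(in `ENNReal`; a product with a factor `0` has norm `0`, `0^(-2/(n j)) = ⊤`, which is bounded by the
product only if no other factor is `0 = (large)^(negative)`; all `|f_i x|^(-2/n)` are `> 0` because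
`|f_i x| < ⊤`, so the product with a factor `⊤` is `⊤`: fine; in fact equality holds pointwise. Or
use the pointwise inequality `∏ a_i^(1/j) ≤ ∑ a_i` (maximum)).
`klt_pow` is the case of a constant family.
-/

set_option autoImplicit false

namespace Pool.Agent.Helper12.KQ

open MeasureTheory

private noncomputable def linEquiv_h17 {d : ℕ} (g : GL (Fin d) ℂ) :
    (Fin d → ℂ) ≃ₗ[ℝ] (Fin d → ℂ) :=
  { toFun := fun x => (g : Matrix (Fin d) (Fin d) ℂ).mulVec x
    map_add' := fun x y => Matrix.mulVec_add _ x y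
    map_smul' := fun r x => by
      simp only [RingHom.id_apply]
      exact Matrix.mulVec_smul _ r x
    invFun := fun x => ((g⁻¹ : GL (Fin d) ℂ) : Matrix (Fin d) (Fin d) ℂ).mulVec x
    left_inv := fun x => by
      show ((g⁻¹ : GL (Fin d) ℂ) : Matrix (Fin d) (Fin d) ℂ).mulVec
        ((g : Matrix (Fin d) (Fin d) ℂ).mulVec x) = x
      rw [Matrix.mulVec_mulVec, ← Units.val_mul, inv_mul_cancel, Units.val_one, Matrix.one_mulVec]
    right_inv := fun x => by
      show (g : Matrix (Fin d) (Fin d) ℂ).mulVec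
        (((g⁻¹ : GL (Fin d) ℂ) : Matrix (Fin d) (Fin d) ℂ).mulVec x) = x
      rw [Matrix.mulVec_mulVec, ← Units.val_mul, mul_inv_cancel, Units.val_one,
        Matrix.one_mulVec] }

private theorem enorm_prod_h17 {ι : Type*} (R : Finset ι) (a : ι → ℂ) :
    ‖∏ i ∈ R, a i‖ₑ = ∏ i ∈ R, ‖a i‖ₑ := by
  classical
  induction R using Finset.induction_on with
  | empty => simp
  | insert i s hi ih => rw [Finset.prod_insert hi, Finset.prod_insert hi, enorm_mul, ih]

private theorem rpow_prod_le_h17 {n : ℕ} (hn : 0 < n) {ι : Type*} (R : Finset ι)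
    (hR : R.Nonempty) (a : ι → ENNReal) :
    (∏ i ∈ R, a i) ^ (-(2 / ((n * R.card : ℕ) : ℝ))) ≤ ∑ i ∈ R, a i ^ (-(2 / (n : ℝ))) := by
  classical
  obtain ⟨i0, hi0, hmin⟩ := Finset.exists_min_image R a hR
  have hj : 0 < R.card := hR.card_pos
  have hn' : (0 : ℝ) < n := by exact_mod_cast hn
  have hj' : (0 : ℝ) < (R.card : ℝ) := by exact_mod_cast hj
  have h1 : a i0 ^ R.card ≤ ∏ i ∈ R, a i := by
    rw [← Finset.prod_const]
    exact Finset.prod_le_prod' fun i hi => hmin i hi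
  have h2 : (∏ i ∈ R, a i) ^ (-(2 / ((n * R.card : ℕ) : ℝ))) ≤ a i0 ^ (-(2 / (n : ℝ))) := by
    rw [ENNReal.rpow_neg, ENNReal.rpow_neg]
    refine ENNReal.inv_le_inv.2 ?_
    calc a i0 ^ (2 / (n : ℝ)) = (a i0 ^ R.card) ^ (2 / ((n * R.card : ℕ) : ℝ)) := by
          rw [← ENNReal.rpow_natCast, ← ENNReal.rpow_mul]
          congr 1
          push_cast
          field_simp
      _ ≤ _ := ENNReal.rpow_le_rpow h1 (by positivity)
  exact h2.trans (Finset.single_le_sum (f := fun i => a i ^ (-(2 / (n : ℝ))))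
    (fun _ _ => zero_le) hi0)

theorem klt_lin {d n : ℕ} (g : GL (Fin d) ℂ) {h : MvPolynomial (Fin d) ℂ} (hk : KltAtZero n h) :
    KltAtZero n (lin (g : Matrix (Fin d) (Fin d) ℂ) h) := by
  obtain ⟨U, hU, hint⟩ := hk
  have hL : ∀ x, linEquiv_h17 g x = (g : Matrix (Fin d) (Fin d) ℂ).mulVec x := fun x => rfl
  let L : (Fin d → ℂ) ≃L[ℝ] (Fin d → ℂ) := (linEquiv_h17 g).toContinuousLinearEquiv
  have hL' : ∀ x, L x = (g : Matrix (Fin d) (Fin d) ℂ).mulVec x := fun x => rfl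
  let E : (Fin d → ℂ) ≃ᵐ (Fin d → ℂ) := L.toHomeomorph.toMeasurableEquiv
  have hE : ∀ x, E x = (g : Matrix (Fin d) (Fin d) ℂ).mulVec x := fun x => rfl
  refine ⟨E ⁻¹' U, ?_, ?_⟩
  · have h0 : L 0 = 0 := map_zero L
    have hc : ContinuousAt L 0 := L.continuous.continuousAt
    rw [ContinuousAt, h0] at hc
    exact hc hU
  · have hdet : LinearMap.det (linEquiv_h17 g : (Fin d → ℂ) →ₗ[ℝ] (Fin d → ℂ)) ≠ 0 :=
      (LinearEquiv.isUnit_det' (linEquiv_h17 g)).ne_zero
    have hmap : Measure.map E (volume : Measure (Fin d → ℂ)) =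
        ENNReal.ofReal |(LinearMap.det (linEquiv_h17 g : (Fin d → ℂ) →ₗ[ℝ] (Fin d → ℂ)))⁻¹| •
          (volume : Measure (Fin d → ℂ)) :=
      Measure.map_linearMap_addHaar_eq_smul_addHaar (μ := volume) hdet
    have h1 : ∫⁻ x in E ⁻¹' U,
        ‖MvPolynomial.eval x (lin (g : Matrix (Fin d) (Fin d) ℂ) h)‖ₑ ^ (-(2 / (n : ℝ))) =
        ∫⁻ y in U, ‖MvPolynomial.eval y h‖ₑ ^ (-(2 / (n : ℝ)))
          ∂(Measure.map E (volume : Measure (Fin d → ℂ))) := by
      rw [E.restrict_map, lintegral_map_equiv]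
      refine lintegral_congr fun x => ?_
      rw [eval_lin, hE]
    rw [h1, hmap, Measure.restrict_smul, lintegral_smul_measure]
    exact ENNReal.mul_lt_top ENNReal.ofReal_lt_top hint

theorem klt_prod {d n : ℕ} (hn : 0 < n) {ι : Type*} (R : Finset ι) (hR : R.Nonempty)
    (f : ι → MvPolynomial (Fin d) ℂ) (hf : ∀ i ∈ R, KltAtZero n (f i)) :
    KltAtZero (n * R.card) (∏ i ∈ R, f i) := by
  classical
  have hch : ∀ i : ι, ∃ U : Set (Fin d → ℂ), i ∈ R → (U ∈ nhds (0 : Fin d → ℂ) ∧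
      ∫⁻ x in U, ‖MvPolynomial.eval x (f i)‖ₑ ^ (-(2 / (n : ℝ))) < ⊤) := by
    intro i
    by_cases hi : i ∈ R
    · obtain ⟨U, h1, h2⟩ := hf i hi
      exact ⟨U, fun _ => ⟨h1, h2⟩⟩
    · exact ⟨Set.univ, fun h => absurd h hi⟩
  choose U hU using hch
  refine ⟨⋂ i ∈ R, U i, (Filter.biInter_finset_mem R).2 fun i hi => (hU i hi).1, ?_⟩
  have hmeas : ∀ i, Measurable fun x : Fin d → ℂ =>
      ‖MvPolynomial.eval x (f i)‖ₑ ^ (-(2 / (n : ℝ))) := fun i =>
    ((MvPolynomial.continuous_eval (f i)).measurable.enorm).pow_const _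
  calc ∫⁻ x in ⋂ i ∈ R, U i,
        ‖MvPolynomial.eval x (∏ i ∈ R, f i)‖ₑ ^ (-(2 / ((n * R.card : ℕ) : ℝ)))
      ≤ ∫⁻ x in ⋂ i ∈ R, U i, ∑ i ∈ R, ‖MvPolynomial.eval x (f i)‖ₑ ^ (-(2 / (n : ℝ))) := by
        refine lintegral_mono fun x => ?_
        rw [map_prod, enorm_prod_h17]
        exact rpow_prod_le_h17 hn R hR _
    _ = ∑ i ∈ R, ∫⁻ x in ⋂ i ∈ R, U i, ‖MvPolynomial.eval x (f i)‖ₑ ^ (-(2 / (n : ℝ))) :=
        lintegral_finsetSum R fun i _ => hmeas i
    _ < ⊤ := by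
        refine ENNReal.sum_lt_top.2 fun i hi => lt_of_le_of_lt ?_ (hU i hi).2
        exact lintegral_mono_set (Set.biInter_subset_of_mem hi)

theorem klt_pow {d n k : ℕ} (hn : 0 < n) (hk : 0 < k) {h : MvPolynomial (Fin d) ℂ}
    (hh : KltAtZero n h) : KltAtZero (n * k) (h ^ k) := by
  have h1 := klt_prod hn (Finset.range k) (Finset.nonempty_range_iff.2 hk.ne') (fun _ => h)
    (fun _ _ => hh)
  simpa using h1

end Pool.Agent.Helper12.KQ
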