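import Pool.Agent.Helper12.KQ.Main
/-!
# Klt complements of bounded index for quotient singularities

Let `X = ℂ^d / G`, `G` a finite subgroup of `GL_d(ℂ)` without pseudo-reflections, `f` the identity
of `X`, `z` the image of the origin.

* `X` is `ε`-lc (`0 < ε ≤ 1`) if and only if `ε ≤ age g` for all `g ≠ 1` in `G` (Reid, Tai).
* Divisors `n B ≥ 0` with `n (K_X + B) ~ 0` near `z` are given by the functions `h` with
  `h (g x) = det (g) ^ n * h x`: the pullback of `n B` to `ℂ^d` is the divisor of `h`, and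
  `(dx_1 ∧ ... ∧ dx_d)^n / h` is `G`-invariant.
* `(X, B)` is klt near `z` if and only if its pullback `(ℂ^d, (1/n) div h)` is klt near `0`, that is,
  if and only if `|h| ^ (-2/n)` is integrable near `0`.

(If `G` contains pseudo-reflections, the theorem is the same statement for the pair `(X, Δ)` whose
pullback is `ℂ^d`.)
-/
set_option autoImplicit false
namespace Pool.Agent.Helper12.KQ.QuotientSingularitiesOld

open MeasureTheory

/-- The number `t ∈ [0, 1)` with `z = exp (2 π i t)`, for `|z| = 1`. -/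
noncomputable def theta (z : ℂ) : ℝ :=
  if 0 ≤ z.arg then z.arg / (2 * Real.pi) else z.arg / (2 * Real.pi) + 1

/-- The age of a matrix of finite order: the sum of `theta z` over the eigenvalues `z`, counted with
multiplicity. -/
noncomputable def age {d : ℕ} (g : Matrix (Fin d) (Fin d) ℂ) : ℝ :=
  (g.charpoly.roots.map theta).sum

/-- `h (g x) = det (g) ^ n * h (x)` for all `g` in `G` and all `x`. -/
def SemiInvariant {d : ℕ} (G : Subgroup (GL (Fin d) ℂ)) (n : ℕ) (h : MvPolynomial (Fin d) ℂ) :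
    Prop :=
  ∀ g ∈ G, ∀ x : Fin d → ℂ,
    MvPolynomial.eval ((g : Matrix (Fin d) (Fin d) ℂ).mulVec x) h =
      (g : Matrix (Fin d) (Fin d) ℂ).det ^ n * MvPolynomial.eval x h

/-- `|h| ^ (-2/n)` (which is `∞` at the zeros of `h`) is integrable in a neighbourhood of `0`. -/
def KltAtZero {d : ℕ} (n : ℕ) (h : MvPolynomial (Fin d) ℂ) : Prop :=
  ∃ U ∈ nhds (0 : Fin d → ℂ), ∫⁻ x in U, ‖MvPolynomial.eval x h‖ₑ ^ (-(2 / (n : ℝ))) < ⊤

/-- For every `d` there is `C` such that for all `0 < ε ≤ 1` and all integers `k ≥ 2` with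
`k ≥ d 2^(d+4) / ε`, every quotient singularity `ℂ^d / G` with all ages at least `ε` has a klt
`k C`-complement. -/
theorem result (d : ℕ) : ∃ C : ℕ, 0 < C ∧ ∀ ε : ℝ, 0 < ε → ε ≤ 1 → ∀ k : ℕ, 2 ≤ k →
    d * 2 ^ (d + 4) / ε ≤ k → ∀ G : Subgroup (GL (Fin d) ℂ), Finite G →
    (∀ g ∈ G, g ≠ 1 → ε ≤ age (g : Matrix (Fin d) (Fin d) ℂ)) →
    ∃ h : MvPolynomial (Fin d) ℂ, SemiInvariant G (k * C) h ∧ KltAtZero (k * C) h :=
  Pool.Agent.Helper12.KQ.main d

end Pool.Agent.Helper12.KQ.QuotientSingularitiesOld
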